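import Pool.Agent.helper61.CSW.PP.SpecA

/-! csw:BDY (helper39; the second half is helper36/PP/BDY.lean) -/

set_option autoImplicit false

open Complex Metric Set Filter Topology MeasureTheory MPS

noncomputable section

open CSS (SE)

namespace YPPS

/-- the local extension at a boundary point over a regular value. -/
theorem BDY_loc (hLUN : LUN_stmt) (hLIFT : LIFT_stmt) (f : SE) (F h : ℂ → ℂ) (a : ℂ) (r r₁ : ℝ) (hf : 1 ≤ f.natDegree)
    (hr : 0 < r) (hr1 : r < r₁) (hF : DifferentiableOn ℂ F (ball a r₁)) (hh : DifferentiableOn ℂ h (ball a r))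
    (hrel : ∀ w ∈ ball a r, f.eval (h w) = F w ∧ fd f (h w) ≠ 0) (wb : ℂ) (hwb : ‖wb - a‖ = r) (hcv : F wb ∉ CV f) :
    ∃ δ > 0, ∃ g : ℂ → ℂ, DifferentiableOn ℂ g (ball wb δ) ∧
      (∀ w ∈ ball wb δ, f.eval (g w) = F w ∧ fd f (g w) ≠ 0) ∧
      ∀ w ∈ ball a r ∩ ball wb δ, g w = h w := by
  have hwb1 : wb ∈ ball a r₁ := by rw [mem_ball, dist_eq_norm, hwb]; exact hr1
  have hUo : IsOpen (ball a r₁ ∩ F ⁻¹' (CV f)ᶜ) :=
    hF.continuousOn.isOpen_inter_preimage isOpen_ball (CV_fin f).isClosed.isOpen_compl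
  obtain ⟨δ, hδ, hsub⟩ := Metric.isOpen_iff.mp hUo wb ⟨hwb1, hcv⟩
  have hne : (𝓝[ball a r] wb).NeBot := by
    rw [← mem_closure_iff_nhdsWithin_neBot, closure_ball a hr.ne', mem_closedBall, dist_eq_norm, hwb]
  have hw1 : (ball a r ∩ ball wb δ).Nonempty := by
    have h1 : ∀ᶠ w in 𝓝[ball a r] wb, w ∈ ball a r ∩ ball wb δ := by
      filter_upwards [self_mem_nhdsWithin, nhdsWithin_le_nhds (ball_mem_nhds wb hδ)] with w h1 h2
      exact ⟨h1, h2⟩
    exact h1.exists
  obtain ⟨p, hpa, hpb⟩ := hw1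
  obtain ⟨g, hgd, hgp, hgr⟩ := hLIFT f (ball wb δ) F p (h p) hf isOpen_ball (convex_ball _ _)
    (hF.mono fun w hw => (hsub hw).1) (fun w hw => (hsub hw).2) hpb (hrel p hpa).1
  refine ⟨δ, hδ, g, hgd, hgr, ?_⟩
  have h2 : EqOn g h (ball a r ∩ ball wb δ) := by
    refine hLUN f (ball a r ∩ ball wb δ) g h p (isOpen_ball.inter isOpen_ball)
      ((convex_ball _ _).inter (convex_ball _ _)).isPreconnected
      (hgd.continuousOn.mono inter_subset_right) (hh.continuousOn.mono inter_subset_left) ?_ ?_ ⟨hpa, hpb⟩ hgp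
    · intro v hv
      rw [(hgr v hv.2).1, (hrel v hv.1).1]
    · intro v hv
      exact (hgr v hv.2).2
  exact fun w hw => h2 hw

theorem BDY (hLUN : LUN_stmt) (hLIFT : LIFT_stmt) : BDY_stmt := by
  intro f F h a r r₁ hf hr hr1 hF hh hrel hno
  by_contra hcon
  have hex : ∀ wb : ℂ, ‖wb - a‖ = r → ∃ δ > 0, ∃ g : ℂ → ℂ, DifferentiableOn ℂ g (ball wb δ) ∧
      (∀ w ∈ ball wb δ, f.eval (g w) = F w ∧ fd f (g w) ≠ 0) ∧
      ∀ w ∈ ball a r ∩ ball wb δ, g w = h w := by
    intro wb hwb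
    by_cases hcv : F wb ∈ CV f
    · by_contra hno2
      refine hcon ⟨wb, hwb, hcv, fun δ hδ g hgd hgr hgh => hno2 ⟨δ, hδ, g, hgd, hgr, hgh⟩⟩
    · exact BDY_loc hLUN hLIFT f F h a r r₁ hf hr hr1 hF hh hrel wb hwb hcv
  choose! δ hδ g hgd hgr hgh using hex
  -- overlap
  have hover : ∀ b b' : ℂ, ‖b - a‖ = r → ‖b' - a‖ = r → ∀ w ∈ ball b (δ b) ∩ ball b' (δ b'),
      g b w = g b' w := by
    intro b b' hb hb' w hw
    by_cases hbb : b = b'
    · rw [hbb]
    have hδb := hδ b hb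
    have hδb' := hδ b' hb'
    have hd : ‖b - b'‖ < δ b + δ b' := by
      have h1 := hw.1
      have h2 := hw.2
      rw [mem_ball, dist_eq_norm] at h1 h2
      have h3 := norm_sub_le_norm_sub_add_norm_sub b w b'
      rw [norm_sub_rev b w] at h3
      linarith
    set s : ℝ := δ b / (δ b + δ b') with hs
    have hs0 : 0 < s := by positivity
    have hs1 : 0 < 1 - s := by
      have : s < 1 := by
        rw [hs, div_lt_one (by positivity)]
        linarith
      linarith
    set p : ℂ := (1 - s) • b + s • b' with hp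
    have hpa : p ∈ ball a r := by
      refine combo_mem_ball_of_ne ?_ ?_ hbb hs1 hs0 (by ring)
      · rw [mem_closedBall, dist_eq_norm, hb]
      · rw [mem_closedBall, dist_eq_norm, hb']
    have hpb : p ∈ ball b (δ b) := by
      have e1 : p - b = s • (b' - b) := by
        rw [hp, sub_smul, one_smul, smul_sub]
        ring
      rw [mem_ball, dist_eq_norm, e1, norm_smul, Real.norm_of_nonneg hs0.le, norm_sub_rev]
      calc s * ‖b - b'‖ < s * (δ b + δ b') := mul_lt_mul_of_pos_left hd hs0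
        _ = δ b := by rw [hs]; field_simp
    have hpb' : p ∈ ball b' (δ b') := by
      have e1 : p - b' = (1 - s) • (b - b') := by
        rw [hp, sub_smul, sub_smul, one_smul, one_smul, smul_sub]
        ring
      rw [mem_ball, dist_eq_norm, e1, norm_smul, Real.norm_of_nonneg hs1.le]
      calc (1 - s) * ‖b - b'‖ < (1 - s) * (δ b + δ b') := mul_lt_mul_of_pos_left hd hs1
        _ = δ b' := by rw [hs]; field_simp; ring
    refine hLUN f (ball b (δ b) ∩ ball b' (δ b')) (g b) (g b') p (isOpen_ball.inter isOpen_ball)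
      ((convex_ball _ _).inter (convex_ball _ _)).isPreconnected
      ((hgd b hb).continuousOn.mono inter_subset_left)
      ((hgd b' hb').continuousOn.mono inter_subset_right) ?_ ?_ ⟨hpb, hpb'⟩ ?_ hw
    · intro v hv
      rw [(hgr b hb v hv.1).1, (hgr b' hb' v hv.2).1]
    · intro v hv
      exact (hgr b hb v hv.1).2
    · rw [hgh b hb p ⟨hpa, hpb⟩, hgh b' hb' p ⟨hpa, hpb'⟩]
  classical
  set H : ℂ → ℂ := fun w => if w ∈ ball a r then h w else
    if hw : ∃ b : ℂ, ‖b - a‖ = r ∧ w ∈ ball b (δ b) then g hw.choose w else 0 with hH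
  have hHh : ∀ w ∈ ball a r, H w = h w := by
    intro w hw
    simp only [hH]
    rw [if_pos hw]
  have hHg : ∀ b : ℂ, ‖b - a‖ = r → ∀ w ∈ ball b (δ b), H w = g b w := by
    intro b hb w hw
    by_cases hwa : w ∈ ball a r
    · rw [hHh w hwa, hgh b hb w ⟨hwa, hw⟩]
    · have hex : ∃ b : ℂ, ‖b - a‖ = r ∧ w ∈ ball b (δ b) := ⟨b, hb, hw⟩
      simp only [hH]
      rw [if_neg hwa, dif_pos hex]
      exact hover _ _ hex.choose_spec.1 hb w ⟨hex.choose_spec.2, hw⟩
  set U : Set ℂ := ball a r ∪ ⋃ b ∈ {b : ℂ | ‖b - a‖ = r}, ball b (δ b) with hU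
  have hUo : IsOpen U := isOpen_ball.union (isOpen_biUnion fun b _ => isOpen_ball)
  have hsub : closedBall a r ⊆ U := by
    intro w hw
    rw [mem_closedBall, dist_eq_norm] at hw
    rcases hw.lt_or_eq with h1 | h1
    · left
      rw [mem_ball, dist_eq_norm]
      exact h1
    · right
      exact mem_iUnion₂.2 ⟨w, h1, mem_ball_self (hδ w h1)⟩
  obtain ⟨η, hη, hthick⟩ := (isCompact_closedBall a r).exists_thickening_subset_open hUo hsub
  rw [thickening_closedBall hη hr.le] at hthick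
  set r' : ℝ := min (η + r) r₁ with hr'
  have hr'1 : r < r' := lt_min (by linarith) hr1
  have hr'U : ball a r' ⊆ U := (ball_subset_ball (min_le_left _ _)).trans hthick
  have hloc : ∀ w ∈ U, DifferentiableAt ℂ H w ∧ f.eval (H w) = F w ∧ fd f (H w) ≠ 0 := by
    intro w hw
    rcases hw with hw | hw
    · refine ⟨?_, ?_⟩
      · have e1 : H =ᶠ[𝓝 w] h := by
          filter_upwards [isOpen_ball.mem_nhds hw] with v hv
          exact hHh v hv
        exact (hh.differentiableAt (isOpen_ball.mem_nhds hw)).congr_of_eventuallyEq e1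
      · rw [hHh w hw]
        exact hrel w hw
    · obtain ⟨b, hb, hwb⟩ := mem_iUnion₂.1 hw
      refine ⟨?_, ?_⟩
      · have e1 : H =ᶠ[𝓝 w] g b := by
          filter_upwards [isOpen_ball.mem_nhds hwb] with v hv
          exact hHg b hb v hv
        exact ((hgd b hb).differentiableAt (isOpen_ball.mem_nhds hwb)).congr_of_eventuallyEq e1
      · rw [hHg b hb w hwb]
        exact hgr b hb w hwb
  refine hno r' hr'1 (min_le_right _ _) ⟨H, ?_, hHh a (mem_ball_self hr), ?_⟩
  · intro w hw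
    exact (hloc w (hr'U hw)).1.differentiableWithinAt
  · intro w hw
    exact (hloc w (hr'U hw)).2

end YPPS
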