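import Pool.Agent.helper61.CSW.PP.Defs

/-!
# Project csw: (MP_70a088_an), block W for CLASS S, part A: preimages, measurability, lifting

Page: /team-store/MP_70a088_CLASSS_helper62.md section 6, /team-store/MP_70a088_EXP_A_helper61.md. The files in `Pool/Agent/helper61/CSW/` are copies of the files of the exponential family
(`Pool/Agent/helper61/EF/`, same folder and file name, namespace `S...` instead of `E...`), generated by a script; `CSS.SE` is the type of the maps of class S.

RULES. File `Pool/Agent/<seat>/CSW/XX.lean`, `import Pool.Agent.helper61.CSW.PP.SpecA`, the same `open` lines and namespace as in the Spec file, `theorem XX (h : YY_stmt) ... : XX_stmt`. Hypotheses: other statements of the csw: and css: Spec files (no circles), all old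
statements that do not mention polynomials are proved. Auxiliary lemmas prefixed `XX_`. No `sorry`, no double quotes in comments.
-/

set_option autoImplicit false

open Complex Metric Set Filter Topology MeasureTheory MPS

noncomputable section

open CSS (SE)

namespace YPPS

/-! ## Algebra -/

/-- PRB: the preimages and the singular values. -/
def PRB_stmt : Prop := ∀ f : SE, 1 ≤ f.natDegree →
  (∀ z y : ℂ, y ∈ pre f z ↔ f.eval y = z) ∧ (CV f).Finite ∧ (CV f).ncard ≤ f.natDegree - 1

/-! ## Lifting -/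

/-- LUN: uniqueness of branches. -/
def LUN_stmt : Prop := ∀ (f : SE) (Ω : Set ℂ) (h₁ h₂ : ℂ → ℂ) (w₀ : ℂ), IsOpen Ω →
  IsPreconnected Ω → ContinuousOn h₁ Ω → ContinuousOn h₂ Ω → (∀ w ∈ Ω, f.eval (h₁ w) = f.eval (h₂ w)) →
  (∀ w ∈ Ω, fd f (h₁ w) ≠ 0) → w₀ ∈ Ω → h₁ w₀ = h₂ w₀ → EqOn h₁ h₂ Ω

/-- LIFT: branches exist on convex sets without singular values. uses: `CSS.LPT_stmt`.
PROOF. Copy of helper2/CSS/LIF.lean with `UD`, `t x` replaced by `Ω`, `w₀ + t (x - w₀)`. -/
def LIFT_stmt : Prop := ∀ (f : SE) (Ω : Set ℂ) (F : ℂ → ℂ) (w₀ v : ℂ), 1 ≤ f.natDegree →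
  IsOpen Ω → Convex ℝ Ω → DifferentiableOn ℂ F Ω → (∀ w ∈ Ω, F w ∉ CV f) → w₀ ∈ Ω →
  f.eval v = F w₀ → Br f F Ω w₀ v

/-- BDY: a branch that cannot be extended beyond a disc has a boundary point without local extension, and this is over a singular value. uses: LUN, LIFT.
PROOF. If there is a local extension at every boundary point: glue as in helper36/PP/BDY.lean (second half of `PPS.BDY`). If `F ws ∉ CV f`: `F ∉ CV f` on a small `ball ws δ` (`CV f` is closed), LIFT gives a branch there with the value `h p` at some `p ∈ ball a r ∩ ball ws δ`, and it agrees with `h` on the convex intersection (LUN). -/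
def BDY_stmt : Prop := ∀ (f : SE) (F h : ℂ → ℂ) (a : ℂ) (r r₁ : ℝ), 1 ≤ f.natDegree →
  0 < r → r < r₁ → DifferentiableOn ℂ F (ball a r₁) → DifferentiableOn ℂ h (ball a r) →
  (∀ w ∈ ball a r, f.eval (h w) = F w ∧ fd f (h w) ≠ 0) →
  (∀ r', r < r' → r' ≤ r₁ → ¬ Br f F (ball a r') a (h a)) →
  ∃ ws : ℂ, ‖ws - a‖ = r ∧ F ws ∈ CV f ∧ NX f F h a r ws

/-- PEX: a branch on a ring extends to the disc. (Copy of helper36/PP/PEX.lean, true for entire functions.) -/
def PEX_stmt : Prop := ∀ (f : SE) (G y : ℂ → ℂ) (a : ℂ) (r₁ r₂ : ℝ), 1 ≤ f.natDegree →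
  0 ≤ r₁ → r₁ < r₂ → DifferentiableOn ℂ G (ball a r₂) → InjOn G (ball a r₂) →
  DifferentiableOn ℂ y {w | r₁ < ‖w - a‖ ∧ ‖w - a‖ < r₂} →
  (∀ w, r₁ < ‖w - a‖ → ‖w - a‖ < r₂ → f.eval (y w) = G w) →
  ∃ ŷ : ℂ → ℂ, DifferentiableOn ℂ ŷ (ball a r₂) ∧
    (∀ w, r₁ < ‖w - a‖ → ‖w - a‖ < r₂ → ŷ w = y w) ∧ ∀ w ∈ ball a r₂, f.eval (ŷ w) = G w

/-- RGB (medium): the branch at a preimage `y` which is not a critical point, over a disc whose only singular value can be the centre. uses: LUN, LIFT.
PROOF. `L` = local inverse of `f` at `y` on `ball z ε`, `ε ≤ δ` (`HasStrictDerivAt.localInverse`). Half plane `Hd = {ξ | Re ξ < log δ}` (convex, open), `F ξ = z + exp ξ ∉ CV f`; LIFT with `Re ξ₀ < log ε`, `v = L (z + exp ξ₀)`: `Y`. On `{Re ξ < log ε}` (convex) `Y ξ = L (z + exp ξ)` (LUN), so `Y (ξ + 2πi) = Y ξ` there,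
and on `Hd` (LUN for `ξ ↦ Y (ξ + 2πi)` and `Y`). `g w = Y (log (w - z))` for `w ≠ z`, `g z = y`: differentiable at `w ≠ z` (near `w` another branch of the logarithm differs by a multiple of `2πi`: periodicity for all integers), and `g = L` near `z`. -/
def RGB_stmt : Prop := ∀ (f : SE) (z y : ℂ) (δ : ℝ), f.eval y = z → fd f y ≠ 0 → 0 < δ →
  (∀ w ∈ ball z δ, w ≠ z → w ∉ CV f) →
  ∃ g : ℂ → ℂ, DifferentiableOn ℂ g (ball z δ) ∧ g z = y ∧ ∀ w ∈ ball z δ, f.eval (g w) = w ∧ fd f (g w) ≠ 0

/-! ## Measure -/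

/-- PTN (short/medium): a countable measurable partition of the plane into sets on which `f` is injective.
PROOF. `crit = {z | fd f z = 0}` is countable (`f' ≢ 0`: `f` is not constant by `f.tra`; zeros of an entire function which is not identically zero: isolated, so countable, e.g. `AnalyticOnNhd.preimage_zero_mem_codiscrete`, or `Set.Countable` of a discrete closed set in a second countable space). Off `crit` every point has an open neighbourhood on which `f` is injective;
`TopologicalSpace.countable_cover_nhdsWithin` (Lindelof) gives countably many of them. Enumerate the open sets and the singletons of `crit`, make them disjoint (`disjointed`; subsets of sets on which `f` is injective). Pad with empty sets. -/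
def PTN_stmt : Prop := ∀ f : SE, ∃ A : ℕ → Set ℂ, (∀ n, MeasurableSet (A n)) ∧ Pairwise (Function.onFun Disjoint A) ∧
  (⋃ n, A n) = univ ∧ ∀ n, InjOn (fun z => f.eval z) (A n)

/-- PSM (medium): sums over the preimages are sums over the partition. uses: nothing (pure, for a partition as in PTN).
PROOF. For `z` fixed: `I = {n | z ∈ f '' (A n)}`; `y ↦` the `n` with `y ∈ A n` is a bijection of `pre f z` onto `I`, the inverse is `n ↦ s n z`, where `s n z ∈ A n`, `f (s n z) = z` (`Function.invFunOn`). `Equiv.tsum_eq`, `tsum_subtype`, `Summable` accordingly (`Equiv.summable_iff`, `summable_subtype_iff_indicator`). -/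
def PSM_stmt : Prop := ∀ (f : SE) (A : ℕ → Set ℂ), Pairwise (Function.onFun Disjoint A) → (⋃ n, A n) = univ →
  (∀ n, InjOn (fun z => f.eval z) (A n)) → ∃ s : ℕ → ℂ → ℂ, (∀ n, s n = Function.invFunOn (fun z => f.eval z) (A n)) ∧
  (∀ n, ∀ z ∈ (fun z => f.eval z) '' (A n), s n z ∈ A n ∧ f.eval (s n z) = z) ∧
  (∀ n, ∀ y ∈ A n, s n (f.eval y) = y) ∧
  (∀ (φ : ℂ → ENNReal) (z : ℂ), ∑' y : pre f z, φ y = ∑' n : ℕ, ((fun z => f.eval z) '' (A n)).indicator (fun z => φ (s n z)) z) ∧
  (∀ (φ : ℂ → ℝ) (z : ℂ), (Summable (fun y : pre f z => φ y) ↔ Summable fun n : ℕ => ((fun z => f.eval z) '' (A n)).indicator (fun z => φ (s n z)) z) ∧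
    ∑' y : pre f z, φ y = ∑' n : ℕ, ((fun z => f.eval z) '' (A n)).indicator (fun z => φ (s n z)) z) ∧
  (∀ (φ : ℂ → ℂ) (z : ℂ), (Summable (fun y : pre f z => φ y) ↔ Summable fun n : ℕ => ((fun z => f.eval z) '' (A n)).indicator (fun z => φ (s n z)) z) ∧
    ∑' y : pre f z, φ y = ∑' n : ℕ, ((fun z => f.eval z) '' (A n)).indicator (fun z => φ (s n z)) z)

/-- MS (medium): sums over the preimages are measurable. uses: PTN, PSM.
PROOF. `f '' (A n)` is measurable and `z ↦ φ (s n z)` is measurable on it: `f` restricted to the Borel set `A n` is a measurable embedding (`MeasurableSet.image_of_continuousOn_injOn`, `ContinuousOn.measurableEmbedding`), so for measurable `C`: `{z ∈ f '' A n | φ (s n z) ∈ C} = f '' (A n ∩ φ⁻¹ C)` is measurable. So every term of the sum over `n` is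
measurable; `Measurable.ennreal_tsum`; for real or complex values: limit of the partial sums `∑ n ∈ range N` (`Summable.hasSum.tendsto_sum_nat`, `measurable_of_tendsto_metrizable`). -/
def MS_stmt : Prop := ∀ f : SE, 1 ≤ f.natDegree →
  (∀ φ : ℂ → ENNReal, Measurable φ → Measurable fun z => ∑' y : pre f z, φ y) ∧
  (∀ φ : ℂ → ℝ, Measurable φ → (∀ z, Summable fun y : pre f z => φ y) →
    Measurable fun z => ∑' y : pre f z, φ y) ∧
  (∀ φ : ℂ → ℂ, Measurable φ → (∀ z, Summable fun y : pre f z => φ y) →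
    Measurable fun z => ∑' y : pre f z, φ y)

/-- MCV (medium): change of variables `∫_K T F = ∫_{f⁻¹ K} F`. uses: PTN, PSM.
PROOF. `lintegral_tsum` (measurable terms as in MS): the left side is `∑_n ∫_{K ∩ f '' A n} F(s n z)/‖f'(s n z)‖² dz`. `MeasureTheory.lintegral_image_eq_lintegral_abs_det_fderiv_mul` on `A n ∩ f⁻¹ K` (real determinant `‖f'(y)‖²`, see helper43/MP/MCV.lean or helper61/EF/PP/MCV.lean): `∫_{A n ∩ f⁻¹ K} ‖f'‖² (F/‖f'‖²)`;
the integrand is `F` where `f' ≠ 0`, and `{f' = 0}` is countable, a null set. Sum over `n`: `∫_{f⁻¹ K} F`. -/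
def MCV_stmt : Prop := ∀ (f : SE) (F : ℂ → ENNReal) (K : Set ℂ), Measurable F → MeasurableSet K →
  ∫⁻ z in K, ∑' y : pre f z, F y / ENNReal.ofReal (‖fd f y‖ ^ 2) =
    ∫⁻ y in {y : ℂ | f.eval y ∈ K}, F y

/-- SMB (medium/long): summability. uses: LUN, RGB.
PROOF. `P` finite with `B` holomorphic off `P`; `z` fixed. `δ > 0` with: `ball z δ` contains no point of `CV f` and no point `f p`, `p ∈ P`, except possibly `z`. For `y ∈ pre f z`, `fd f y ≠ 0`: RGB gives `g_y` on `ball z δ`, `D_y = g_y '' ball z δ` is open (or: measurable), connected, and closed in `f⁻¹ (ball z δ)` (`x = lim g_y (w_j)`: `w_j → f x`, `x = g_y (f x)`); the `D_y` are pairwise disjoint (LUN).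
Let `p ∈ P`. If `f p ≠ z` then `p ∉ f⁻¹ (closedBall z (δ/2))`. If `f p = z`: `U_p` = connected component of `p` in the open set `f⁻¹ (ball z δ)`, open; `D_y` does not meet `U_p` for `y ≠ p` (otherwise `U_p ⊆ D_y` as `D_y` is open and closed in `f⁻¹ (ball z δ)`, so `p = g_y (f p) = g_y z = y`). `E = f⁻¹ (closedBall z (δ/2)) \ ⋃_{p ∈ P, f p = z} U_p` is closed, disjoint from `P`, so
`∫_E ‖B‖ < ∞` (continuous on the compact set `E ∩ closedBall 0 R`, DC off it). For all `y ∈ pre f z \ P`, `fd f y ≠ 0`: `g_y '' ball z (δ/2) ⊆ E` and by the mean value property of `w ↦ B (g_y w) (g_y' w)²` on `ball z (δ/2)`: `‖B y‖/‖fd f y‖² ≤ (4/(π δ²)) ∫_{g_y '' ball z (δ/2)} ‖B‖` (`g_y'(z) = 1/fd f y`). Disjoint images: the sum over `y` is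
`≤ (4/(π δ²)) ∫_E ‖B‖`. The finitely many `y ∈ P` do not matter, critical `y` contribute `0`. Finite partial sums are bounded: `summable_of_sum_le`. -/
def SMB_stmt : Prop := ∀ (f : SE) (B : ℂ → ℂ), DC B →
  ∀ z : ℂ, Summable (fun y : pre f z => B y / fd f y ^ 2) ∧
    Summable (fun y : pre f z => ‖B y‖ / ‖fd f y‖ ^ 2)

/-- NIJ (short): no iterate is injective. uses: `CSS.LGA_stmt` or `CSS.LGB_stmt` (logarithmic branches) and a radius `R` with `CSS.RA f R`.
PROOF. `f` takes the value `w`, `‖w‖ > R`, at infinitely many points: for a logarithmic branch `g` on `HR R` (`f (g W) = exp W`, LGA) the points `g (W + 2πi m)` are pairwise different (helper62/CSS/SpecL.lean, LGI/LGB); or: an injective entire function is affine (Casorati-Weierstrass), against `f.tra`. -/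
def NIJ_stmt : Prop := ∀ f : SE, ¬ Function.Injective (fun z => f.eval z)

end YPPS
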