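import Pool.Agent.helper61.CSW.Base
import Pool.Agent.helper61.CSW.PP.SpecA
import Pool.Agent.helper61.CSW.Exports
import Pool.Agent.helper62.CSS.SpecL
import Mathlib.Topology.Homotopy.Lifting

/-! csw:LIFT (helper11; copy of helper2/CSS/LIF.lean): branches exist on convex sets without singular values. -/

set_option autoImplicit false

open Complex Metric Set Filter Topology MeasureTheory MPS

noncomputable section

open CSS (SE)

namespace YPPS

/-- a continuous branch is holomorphic. -/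
theorem LIFT_diff (f : SE) (Ω : Set ℂ) (hΩ : IsOpen Ω) (F h : ℂ → ℂ)
    (hF : DifferentiableOn ℂ F Ω) (hh : ContinuousOn h Ω)
    (hrel : ∀ w ∈ Ω, f.eval (h w) = F w ∧ fd f (h w) ≠ 0) : DifferentiableOn ℂ h Ω := by
  intro w hw
  refine DifferentiableAt.differentiableWithinAt ?_
  have hFd : DifferentiableAt ℂ F w := hF.differentiableAt (hΩ.mem_nhds hw)
  have hfa : AnalyticAt ℂ (fun y => f.eval y) (h w) :=
    (f.differentiable.differentiableOn (s := univ)).analyticAt univ_mem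
  have hfd : deriv (fun y => f.eval y) (h w) ≠ 0 := (hrel w hw).2
  set L : ℂ → ℂ := hfa.hasStrictDerivAt.localInverse _ _ _ hfd with hL
  have hLa : AnalyticAt ℂ L (f.eval (h w)) := hfa.analyticAt_localInverse hfd
  have hLl : ∀ᶠ y in 𝓝 (h w), L (f.eval y) = y := hfa.hasStrictDerivAt.eventually_left_inverse hfd
  rw [(hrel w hw).1] at hLa
  have hhc : ContinuousAt h w := hh.continuousAt (hΩ.mem_nhds hw)
  have e1 : h =ᶠ[𝓝 w] fun w => L (F w) := by
    filter_upwards [hhc.eventually hLl, hΩ.mem_nhds hw] with v h1 h2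
    rw [← (hrel v h2).1]
    exact h1.symm
  exact (hLa.differentiableAt.comp w hFd).congr_of_eventuallyEq e1

/-- the set where the derivative does not vanish. -/
abbrev LIFT_E (f : SE) : Type := {z : ℂ // fd f z ≠ 0}

theorem LIFT_sd (f : SE) (z : ℂ) : HasStrictDerivAt (fun w => f.eval w) (fd f z) z :=
  (f.dif.analyticAt z).hasStrictDerivAt

theorem LIFT_open (f : SE) : IsOpen {z : ℂ | fd f z ≠ 0} := isOpen_ne_fun (fd_cont f) continuous_const

theorem LIFT_homeo (f : SE) : IsLocalHomeomorph (fun e : LIFT_E f => f.eval e.1) := by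
  have h1 : IsLocalHomeomorphOn (fun w => f.eval w) {z : ℂ | fd f z ≠ 0} := by
    intro z hz
    have hF := (LIFT_sd f z).hasStrictFDerivAt_equiv hz
    exact ⟨hF.toOpenPartialHomeomorph (fun w => f.eval w), hF.mem_toOpenPartialHomeomorph_source,
      (hF.toOpenPartialHomeomorph_coe).symm⟩
  have h2 : IsLocalHomeomorph (Subtype.val : LIFT_E f → ℂ) := (LIFT_open f).isOpenEmbedding_subtypeVal.isLocalHomeomorph
  rw [isLocalHomeomorph_iff_isLocalHomeomorphOn_univ] at h2 ⊢
  exact h1.comp h2 (fun e _ => e.2)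

theorem LIFT (h : CSS.LPT_stmt) : LIFT_stmt := by
  intro f Ω F w₀ v hf hΩo hΩc hF hCV hw₀ hv
  -- the lifts of the segments
  have hmem : ∀ x : Ω, ∀ t ∈ Icc (0 : ℝ) 1, w₀ + (t : ℂ) * ((x : ℂ) - w₀) ∈ Ω := by
    intro x t ht
    have := hΩc.add_smul_sub_mem hw₀ x.2 ht
    rwa [Complex.real_smul] at this
  have hl : ∀ x : Ω, ∃ Γ : ℝ → ℂ, ContinuousOn Γ (Icc 0 1) ∧ Γ 0 = v ∧
      ∀ t ∈ Icc (0 : ℝ) 1, f.eval (Γ t) = F (w₀ + (t : ℂ) * ((x : ℂ) - w₀)) := by
    intro x
    refine h f (fun t => F (w₀ + (t : ℂ) * ((x : ℂ) - w₀))) ?_ ?_ v ?_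
    · refine hF.continuousOn.comp ?_ (fun t ht => hmem x t ht)
      exact (continuous_const.add (Complex.continuous_ofReal.mul continuous_const)).continuousOn
    · intro t ht
      exact hCV _ (hmem x t ht)
    · simpa using hv
  choose Γ hΓc hΓ0 hΓ using hl
  have hne : ∀ (x : Ω) (t : ℝ), t ∈ Icc (0 : ℝ) 1 → fd f (Γ x t) ≠ 0 := by
    intro x t ht
    refine fd_ne_of f _ ?_
    rw [hΓ x t ht]
    exact hCV _ (hmem x t ht)
  let g : unitInterval × Ω → LIFT_E f := fun q => ⟨Γ q.2 q.1, hne q.2 q.1 q.1.2⟩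
  have hHc : Continuous (fun q : unitInterval × Ω => F (w₀ + ((q.1 : ℝ) : ℂ) * ((q.2 : ℂ) - w₀))) := by
    refine hF.continuousOn.comp_continuous ?_ (fun q => hmem q.2 q.1 q.1.2)
    exact continuous_const.add ((Complex.continuous_ofReal.comp (continuous_subtype_val.comp continuous_fst)).mul
      ((continuous_subtype_val.comp continuous_snd).sub continuous_const))
  have hgc : Continuous g := by
    refine (LIFT_homeo f).continuous_lift (T2Space.isSeparatedMap _) ⟨_, hHc⟩ ?_ ?_ ?_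
    · funext q
      exact hΓ q.2 q.1 q.1.2
    · have : (fun x : Ω => g (0, x)) = fun x => ⟨v, by have := hne x 0 ⟨le_rfl, zero_le_one⟩; rwa [hΓ0 x] at this⟩ := by
        funext x
        apply Subtype.ext
        exact hΓ0 x
      rw [this]
      refine Continuous.subtype_mk continuous_const _
    · intro x
      refine Continuous.subtype_mk ?_ _
      exact (hΓc x).comp_continuous continuous_subtype_val (fun t => t.2)
  -- the lift
  classical
  let X' : ℂ → ℂ := fun x => if hx : x ∈ Ω then (g (1, ⟨x, hx⟩) : LIFT_E f).1 else 0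
  have hX'1 : ∀ x (hx : x ∈ Ω), X' x = Γ ⟨x, hx⟩ 1 := by
    intro x hx
    simp only [X', dif_pos hx, g]
    rfl
  have hX'c : ContinuousOn X' Ω := by
    rw [continuousOn_iff_continuous_domRestrict]
    have : Ω.domRestrict X' = fun x : Ω => (g (1, x) : LIFT_E f).1 := by
      funext x
      rw [Set.domRestrict_apply]
      simp only [X', dif_pos x.2]
    rw [this]
    exact continuous_subtype_val.comp (hgc.comp (Continuous.prodMk_right _))
  have hrel : ∀ x ∈ Ω, f.eval (X' x) = F x ∧ fd f (X' x) ≠ 0 := by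
    intro x hx
    rw [hX'1 x hx]
    refine ⟨?_, hne _ 1 ⟨zero_le_one, le_rfl⟩⟩
    rw [hΓ ⟨x, hx⟩ 1 ⟨zero_le_one, le_rfl⟩]
    simp
  refine ⟨X', LIFT_diff f Ω hΩo F X' hF hX'c hrel, ?_, hrel⟩
  have hcst : g (1, ⟨w₀, hw₀⟩) = g (0, ⟨w₀, hw₀⟩) := by
    refine (T2Space.isSeparatedMap (fun e : LIFT_E f => f.eval e.1)).const_of_comp (LIFT_homeo f).isLocallyInjective
      (g := fun t : unitInterval => g (t, ⟨w₀, hw₀⟩)) (hgc.comp (Continuous.prodMk_left _)) ?_ 1 0
    intro t t'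
    have e1 := hΓ ⟨w₀, hw₀⟩ t t.2
    have e2 := hΓ ⟨w₀, hw₀⟩ t' t'.2
    simp only [sub_self, mul_zero, add_zero] at e1 e2
    exact e1.trans e2.symm
  have e : (g (1, ⟨w₀, hw₀⟩) : LIFT_E f).1 = (g (0, ⟨w₀, hw₀⟩) : LIFT_E f).1 := by rw [hcst]
  simp only [X', dif_pos hw₀]
  rw [e]
  exact hΓ0 _

end YPPS
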