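import Pool.Agent.helper61.CSW.PP.SpecA

/-!
# Project csw: (MP_70a088_an): change of variables `∫_K T F = ∫_{f⁻¹ K} F` (helper4)
-/

set_option autoImplicit false

open Complex Metric Set Filter Topology MeasureTheory MPS

noncomputable section

open CSS (SE)

namespace YPPS

theorem MCV_det (A : ℂ →L[ℂ] ℂ) : (A.restrictScalars ℝ).det = ‖A 1‖ ^ 2 := by
  have h1 : (A.restrictScalars ℝ).det = LinearMap.det ((A : ℂ →ₗ[ℂ] ℂ).restrictScalars ℝ) := rfl
  rw [h1, LinearMap.det_restrictScalars, Algebra.norm_complex_apply, LinearMap.det_ring,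
    Complex.sq_norm]
  rfl

/-- the derivative is not identically zero. -/
theorem MCV_ex (f : SE) : ∃ y, fd f y ≠ 0 := by
  by_contra h
  push Not at h
  have h1 : ∀ x : ℂ, deriv f.f x = 0 := fun x => h x
  have h2 : ∀ x y : ℂ, f.f x = f.f y := fun x y => is_const_of_deriv_eq_zero f.dif h1 x y
  obtain ⟨z, hz⟩ := f.tra (Polynomial.C (f.f 0))
  exact hz (by rw [Polynomial.eval_C]; exact h2 z 0)

/-- almost every point is not critical. -/
theorem MCV_ae (f : SE) : ∀ᵐ y ∂(volume : Measure ℂ), fd f y ≠ 0 := by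
  obtain ⟨y₀, hy₀⟩ := MCV_ex f
  have h1 : AnalyticOnNhd ℂ (fd f) univ := (fd_dif f).differentiableOn.analyticOnNhd isOpen_univ
  have h2 : fd f ⁻¹' {0}ᶜ ∈ Filter.codiscrete ℂ := h1.preimage_zero_mem_codiscrete hy₀
  have h3 : fd f ⁻¹' {0}ᶜ ∈ Filter.codiscreteWithin (univ : Set ℂ) := h2
  have h4 := ae_restrict_le_codiscreteWithin (μ := (volume : Measure ℂ)) MeasurableSet.univ h3
  rw [Measure.restrict_univ] at h4
  filter_upwards [h4] with y hy
  exact hy

theorem MCV_one (f : SE) (A : Set ℂ) (s : ℂ → ℂ) (F : ℂ → ENNReal) (K : Set ℂ) (hA : MeasurableSet A)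
    (hinj : InjOn (fun z => f.eval z) A) (hs : ∀ y ∈ A, s (f.eval y) = y) (hK : MeasurableSet K) :
    ∫⁻ z in K, ((fun z => f.eval z) '' A).indicator (fun z => F (s z) / ENNReal.ofReal (‖fd f (s z)‖ ^ 2)) z =
      ∫⁻ y in A ∩ {y : ℂ | f.eval y ∈ K}, F y := by
  have hcont : Continuous (fun z : ℂ => f.eval z) := f.dif.continuous
  have hAK : MeasurableSet (A ∩ {y : ℂ | f.eval y ∈ K}) := hA.inter (hcont.measurable hK)
  have hI : MeasurableSet ((fun z => f.eval z) '' A) := hA.image_of_continuousOn_injOn hcont.continuousOn hinj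
  have himg : (fun y => f.eval y) '' (A ∩ {y : ℂ | f.eval y ∈ K}) = K ∩ (fun z => f.eval z) '' A := by
    ext z
    constructor
    · rintro ⟨y, ⟨hy, hy'⟩, rfl⟩
      exact ⟨hy', y, hy, rfl⟩
    · rintro ⟨hz, y, hy, rfl⟩
      exact ⟨y, ⟨hy, hz⟩, rfl⟩
  rw [setLIntegral_indicator hI, inter_comm, ← himg,
    lintegral_image_eq_lintegral_abs_det_fderiv_mul volume hAK
    (f' := fun y => (ContinuousLinearMap.toSpanSingleton ℂ
      (f.derivative.eval y) : ℂ →L[ℂ] ℂ).restrictScalars ℝ) _ (hinj.mono inter_subset_left)]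
  · apply setLIntegral_congr_fun_ae hAK
    filter_upwards [MCV_ae f] with y hy hyA
    have h2 : (0 : ℝ) < ‖fd f y‖ ^ 2 := by
      have := norm_pos_iff.2 hy
      positivity
    have h3 : ENNReal.ofReal |((ContinuousLinearMap.toSpanSingleton ℂ
      (f.derivative.eval y) : ℂ →L[ℂ] ℂ).restrictScalars ℝ).det| = ENNReal.ofReal (‖fd f y‖ ^ 2) := by
      rw [MCV_det, abs_of_nonneg (by positivity)]
      simp [fd]
    show ENNReal.ofReal |((ContinuousLinearMap.toSpanSingleton ℂ
      (f.derivative.eval y) : ℂ →L[ℂ] ℂ).restrictScalars ℝ).det| *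
      (F (s (f.eval y)) / ENNReal.ofReal (‖fd f (s (f.eval y))‖ ^ 2)) = F y
    rw [h3, hs y hyA.1]
    exact ENNReal.mul_div_cancel (ENNReal.ofReal_pos.2 h2).ne' ENNReal.ofReal_ne_top
  · intro y _
    have h := (f.hasDerivAt y).hasFDerivAt.restrictScalars ℝ
    exact h.hasFDerivWithinAt

theorem MCV_meas (f : SE) (A : Set ℂ) (s : ℂ → ℂ) (φ : ℂ → ENNReal) (hφ : Measurable φ) (hA : MeasurableSet A)
    (hinj : InjOn (fun z => f.eval z) A) (hs : ∀ y ∈ A, s (f.eval y) = y) :
    Measurable (((fun z => f.eval z) '' A).indicator (fun z => φ (s z))) := by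
  have hcont : Continuous (fun z : ℂ => f.eval z) := f.dif.continuous
  have hI : MeasurableSet ((fun z => f.eval z) '' A) := hA.image_of_continuousOn_injOn hcont.continuousOn hinj
  intro C hC
  have h1 : MeasurableSet ((fun z => f.eval z) '' (A ∩ φ ⁻¹' C)) :=
    (hA.inter (hφ hC)).image_of_continuousOn_injOn hcont.continuousOn (hinj.mono inter_subset_left)
  have h2 : (((fun z => f.eval z) '' A).indicator (fun z => φ (s z))) ⁻¹' C =
      (fun z => f.eval z) '' (A ∩ φ ⁻¹' C) ∪ (((fun z => f.eval z) '' A)ᶜ ∩ {z | (0 : ENNReal) ∈ C}) := by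
    ext z
    by_cases hz : z ∈ (fun z => f.eval z) '' A
    · simp only [mem_preimage, indicator_of_mem hz, mem_union, mem_inter_iff, mem_compl_iff, hz, not_true_eq_false,
        false_and, or_false]
      obtain ⟨y, hy, rfl⟩ := hz
      simp only [hs y hy]
      constructor
      · intro h
        exact ⟨y, ⟨hy, h⟩, rfl⟩
      · rintro ⟨y', ⟨hy', h⟩, h'⟩
        have : y' = y := hinj hy' hy h'
        rw [← this]
        exact h
    · simp only [mem_preimage, indicator_of_notMem hz, mem_union, mem_inter_iff, mem_compl_iff, hz, not_false_eq_true,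
        true_and]
      constructor
      · intro h
        exact Or.inr h
      · rintro (⟨y, ⟨hy, -⟩, rfl⟩ | h)
        · exact absurd ⟨y, hy, rfl⟩ hz
        · exact h
  rw [h2]
  refine h1.union (hI.compl.inter ?_)
  by_cases h0 : (0 : ENNReal) ∈ C
  · simp [h0]
  · simp [h0]

theorem MCV (hPTN : PTN_stmt) (hPSM : PSM_stmt) : MCV_stmt := by
  intro f F K hF hK
  obtain ⟨A, hAm, hAd, hAu, hAi⟩ := hPTN f
  obtain ⟨s, -, -, hs, hsum, -, -⟩ := hPSM f A hAd hAu hAi
  have hcont : Continuous (fun z : ℂ => f.eval z) := f.dif.continuous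
  have hφ : Measurable fun y : ℂ => F y / ENNReal.ofReal (‖fd f y‖ ^ 2) :=
    hF.div (ENNReal.measurable_ofReal.comp ((fd_cont f).norm.pow 2).measurable)
  have h1 : (fun z => ∑' y : pre f z, F y / ENNReal.ofReal (‖fd f y‖ ^ 2)) =
      fun z => ∑' n : ℕ, ((fun z => f.eval z) '' (A n)).indicator
        (fun z => F (s n z) / ENNReal.ofReal (‖fd f (s n z)‖ ^ 2)) z := by
    funext z
    exact hsum (fun y => F y / ENNReal.ofReal (‖fd f y‖ ^ 2)) z
  rw [h1, lintegral_tsum]
  · have h3 : ∀ n : ℕ, ∫⁻ z in K, ((fun z => f.eval z) '' (A n)).indicator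
        (fun z => F (s n z) / ENNReal.ofReal (‖fd f (s n z)‖ ^ 2)) z =
      ∫⁻ y in A n ∩ {y : ℂ | f.eval y ∈ K}, F y := fun n => MCV_one f (A n) (s n) F K (hAm n) (hAi n) (hs n) hK
    rw [tsum_congr h3, ← lintegral_iUnion]
    · congr 2
      rw [← iUnion_inter, hAu, univ_inter]
    · intro n
      exact (hAm n).inter (hcont.measurable hK)
    · intro n m hne
      exact (hAd hne).mono inter_subset_left inter_subset_left
  · intro n
    exact (MCV_meas f (A n) (s n) (fun y => F y / ENNReal.ofReal (‖fd f y‖ ^ 2)) hφ (hAm n) (hAi n) (hs n)).aemeasurable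

end YPPS
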