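import Pool.Agent.helper61.CSW.Base
import Pool.Agent.helper61.CSW.PP.SpecA
import Pool.Agent.helper61.CSW.Exports

/-!
# pp:MI (helper69): measurability, positivity of the deficit. Version for `f z = exp z + c` (helper48).

`MI_TT` and `MI_TTs` take the statement `MS_stmt` (and `SMB_stmt`) as hypotheses.
-/

set_option autoImplicit false

open Complex Metric Set Filter Topology MeasureTheory MPS

noncomputable section

open CSS (SE)

namespace YPPS

theorem MI_poly (p : SE) : Measurable fun y : ℂ => p.eval y :=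
  p.continuous.measurable

/-- the transfer operator preserves measurability, for `q` with summable sums over the preimages. -/
theorem MI_TT (hMS : MS_stmt) (f : SE) (hf : 1 ≤ f.natDegree) (q : ℂ → ℂ) (hq : Measurable q)
    (hs : ∀ z, Summable fun y : pre f z => q y / fd f y ^ 2) :
    Measurable (TT f q) :=
  (hMS f hf).2.2 (fun y => q y / fd f y ^ 2) (hq.div ((fd_cont f).measurable.pow_const 2)) hs

/-- the same with the bound `‖q y‖ ≤ C/‖y‖²` near infinity. -/
theorem MI_TTs (hMS : MS_stmt) (hSMB : SMB_stmt) (f : SE) (q : ℂ → ℂ) (hq : Measurable q)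
    (hb : DC q) :
    Measurable (TT f q) :=
  MI_TT hMS f (by have := f.two_le; omega) q hq fun z => (hSMB f q hb z).1

/-- the sum of the norms is measurable. -/
theorem MI_TTn (hMS : MS_stmt) (f : SE) (hf : 1 ≤ f.natDegree) (q : ℂ → ℂ) (hq : Measurable q)
    (hs : ∀ z, Summable fun y : pre f z => ‖q y‖ / ‖fd f y‖ ^ 2) :
    Measurable fun z => ∑' y : pre f z, ‖q y‖ / ‖fd f y‖ ^ 2 :=
  (hMS f hf).2.1 (fun y => ‖q y‖ / ‖fd f y‖ ^ 2)
    (hq.norm.div ((fd_cont f).measurable.norm.pow_const 2)) hs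

/-- positivity of the deficit; the first argument (the fibre) is a subset of the plane. -/
theorem MI_pos (s : Set ℂ) (f : SE) (q : ℂ → ℂ)
    (hs : Summable fun y : s => ‖q y‖ / ‖fd f y‖ ^ 2) :
    ‖∑' y : s, q y / fd f y ^ 2‖ ≤ ∑' y : s, ‖q y‖ / ‖fd f y‖ ^ 2 := by
  have h1 : (fun y : s => ‖q y / fd f y ^ 2‖) = fun y : s => ‖q y‖ / ‖fd f y‖ ^ 2 := by
    funext y
    rw [norm_div, norm_pow]
  have h2 := norm_tsum_le_tsum_norm (f := fun y : s => q y / fd f y ^ 2) (by rw [h1]; exact hs)
  rw [h1] at h2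
  exact h2

/-- positivity of the deficit without a summability hypothesis on the norms of the real sum: if the sum over the
fibre of the norms diverges, both sides may be `0`. -/
theorem MI_posT (hSMB : SMB_stmt) (f : SE) (q : ℂ → ℂ)
    (hb : DC q) (z : ℂ) :
    ‖TT f q z‖ ≤ ∑' y : pre f z, ‖q y‖ / ‖fd f y‖ ^ 2 :=
  MI_pos (pre f z) f q (hSMB f q hb z).2

end YPPS
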