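import Pool.Agent.helper61.CSW.Base
import Pool.Agent.helper61.CSW.PP.SpecA
import Pool.Agent.helper61.CSW.Exports

/-!
# Project csw: MS (helper18): sums over the preimages of a map of class S are measurable
-/

set_option autoImplicit false

open Complex Metric Set Filter Topology MeasureTheory MPS

noncomputable section

open CSS (SE)

namespace YPPS

/-- a single term of the sum is measurable. -/
theorem MS_term {M : Type*} [Zero M] [MeasurableSpace M] (f : SE) (A : Set ℂ) (s : ℂ → ℂ) (hA : MeasurableSet A)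
    (hinj : InjOn (fun z => f.eval z) A) (hs : ∀ y ∈ A, s (f.eval y) = y) (φ : ℂ → M) (hφ : Measurable φ) :
    Measurable fun z => ((fun z => f.eval z) '' A).indicator (fun z => φ (s z)) z := by
  have hc : Continuous fun z => f.eval z := f.dif.continuous
  intro C hC
  have e : (fun z => ((fun z => f.eval z) '' A).indicator (fun z => φ (s z)) z) ⁻¹' C =
      (((fun z => f.eval z) '' A)ᶜ ∩ {_z : ℂ | (0 : M) ∈ C}) ∪ (fun z => f.eval z) '' (A ∩ φ ⁻¹' C) := by
    ext z
    constructor
    · intro hz
      have hz' : ((fun z => f.eval z) '' A).indicator (fun z => φ (s z)) z ∈ C := hz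
      by_cases h : z ∈ (fun z => f.eval z) '' A
      · rw [indicator_of_mem h] at hz'
        obtain ⟨y, hy, rfl⟩ := h
        have hy2 : s (f.eval y) = y := hs y hy
        refine Or.inr ⟨y, ⟨hy, ?_⟩, rfl⟩
        have hz2 : φ (s (f.eval y)) ∈ C := hz'
        rw [hy2] at hz2
        exact hz2
      · rw [indicator_of_notMem h] at hz'
        exact Or.inl ⟨h, hz'⟩
    · rintro (⟨h, h0⟩ | ⟨y, ⟨hy, hyC⟩, rfl⟩)
      · change ((fun z => f.eval z) '' A).indicator (fun z => φ (s z)) z ∈ C
        rw [indicator_of_notMem h]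
        exact h0
      · change ((fun z => f.eval z) '' A).indicator (fun z => φ (s z)) (f.eval y) ∈ C
        rw [indicator_of_mem (mem_image_of_mem (fun z => f.eval z) hy)]
        have hy2 : s (f.eval y) = y := hs y hy
        rw [hy2]
        exact hyC
  rw [e]
  refine MeasurableSet.union (MeasurableSet.inter ?_ (MeasurableSet.const _)) ?_
  · exact (hA.image_of_continuousOn_injOn hc.continuousOn hinj).compl
  · exact (hA.inter (hφ hC)).image_of_continuousOn_injOn hc.continuousOn (hinj.mono inter_subset_left)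

/-- a convergent series of measurable functions. -/
theorem MS_lim {M : Type*} [AddCommMonoid M] [TopologicalSpace M] [T2Space M]
    [TopologicalSpace.PseudoMetrizableSpace M] [MeasurableSpace M] [BorelSpace M]
    [MeasurableAdd₂ M] (F : ℕ → ℂ → M) (hF : ∀ n, Measurable (F n)) (g : ℂ → M)
    (h : ∀ z, HasSum (fun n : ℕ => F n z) (g z)) : Measurable g := by
  have hP : ∀ N : ℕ, Measurable fun z => ∑ n ∈ Finset.range N, F n z := fun N =>
    Finset.measurable_fun_sum _ fun n _ => hF n
  refine measurable_of_tendsto_metrizable hP ?_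
  rw [tendsto_pi_nhds]
  intro z
  exact (h z).tendsto_sum_nat

theorem MS (hPTN : PTN_stmt) (hPSM : PSM_stmt) : MS_stmt := by
  intro f _
  obtain ⟨A, hA, hd, hU, hinj⟩ := hPTN f
  obtain ⟨s, -, -, hs2, hE, hR, hC⟩ := hPSM f A hd hU hinj
  refine ⟨?_, ?_, ?_⟩
  · intro φ hφ
    refine MS_lim (fun n z => ((fun z => f.eval z) '' (A n)).indicator (fun z => φ (s n z)) z)
      (fun n => MS_term f (A n) (s n) (hA n) (hinj n) (hs2 n) φ hφ) _ ?_
    intro z
    rw [hE φ z]
    exact ENNReal.summable.hasSum
  · intro φ hφ hsum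
    refine MS_lim (fun n z => ((fun z => f.eval z) '' (A n)).indicator (fun z => φ (s n z)) z)
      (fun n => MS_term f (A n) (s n) (hA n) (hinj n) (hs2 n) φ hφ) _ ?_
    intro z
    rw [(hR φ z).2]
    exact ((hR φ z).1.1 (hsum z)).hasSum
  · intro φ hφ hsum
    refine MS_lim (fun n z => ((fun z => f.eval z) '' (A n)).indicator (fun z => φ (s n z)) z)
      (fun n => MS_term f (A n) (s n) (hA n) (hinj n) (hs2 n) φ hφ) _ ?_
    intro z
    rw [(hC φ z).2]
    exact ((hC φ z).1.1 (hsum z)).hasSum

end YPPS
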