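import Pool.Agent.helper61.CSW.PP.SpecA
import Pool.Agent.helper62.CSS.SpecL

/-!
# csw: NIJ: a map of class S is not injective (helper77)
-/

set_option autoImplicit false

open Complex Metric Set Filter Topology MeasureTheory MPS

noncomputable section

open CSS (SE)

namespace YPPS

theorem NIJ (hNPL : CSS.NPL_stmt) (hRAX : CSS.RAX_stmt) (hLGB : CSS.LGB_stmt) : NIJ_stmt := by
  intro f hinj
  obtain ⟨R, -, hR⟩ := hRAX f
  have hRA := hR R le_rfl
  obtain ⟨a, ha⟩ := hNPL f R 0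
  rw [pow_zero, mul_one] at ha
  obtain ⟨G, W₀, hG, hW₀, -, -⟩ := hLGB f R hRA a ha
  have hW₁ : W₀ + 2 * Real.pi * I ∈ CSS.HR R := by
    have h1 : (W₀ + 2 * Real.pi * I).re = W₀.re := by simp
    show Real.log R < (W₀ + 2 * Real.pi * I).re
    rw [h1]
    exact hW₀
  have h2 : f.eval (Complex.exp (G W₀)) = f.eval (Complex.exp (G (W₀ + 2 * Real.pi * I))) := by
    rw [hG.eq W₀ hW₀, hG.eq _ hW₁, Complex.exp_periodic]
  have h3 : Complex.exp (G W₀) = Complex.exp (G (W₀ + 2 * Real.pi * I)) := hinj h2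
  have h4 := hG.inj hW₀ hW₁ h3
  have h5 : (2 * Real.pi * I : ℂ) = 0 := by
    have h6 : W₀ + 0 = W₀ + 2 * Real.pi * I := by rw [add_zero]; exact h4
    exact (add_left_cancel h6).symm
  exact Complex.two_pi_I_ne_zero h5

end YPPS
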