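import Pool.Agent.helper61.CSW.Base
import Pool.Agent.helper61.CSW.PP.SpecA
import Pool.Agent.helper61.CSW.Exports

/-! pp:PEX (ring extension) -/

set_option autoImplicit false

open Complex Metric Set Filter Topology MeasureTheory MPS

noncomputable section

open CSS (SE)

namespace YPPS

theorem PEX_far (f : SE) (y G : ℂ → ℂ) (a : ℂ) (r : ℝ) (N : Set ℂ) (hr : 0 < r)
    (hN : IsOpen N) (hs : sphere a r ⊆ N) (hy : DifferentiableOn ℂ y N)
    (hG : ∀ w ∈ N, f.eval (y w) = G w) :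
    ∃ B : ℝ, ∀ z : ℂ, B < ‖z‖ → (∮ ζ in C(a, r), y ζ * deriv G ζ / (G ζ - z)) = 0 := by
  obtain ⟨M, hM⟩ := (isCompact_sphere a r).exists_bound_of_continuousOn (hy.continuousOn.mono hs)
  obtain ⟨B, hB⟩ := (isCompact_closedBall (0 : ℂ) (M + 1)).exists_bound_of_continuousOn
    (f := fun Y => f.eval Y) f.continuous.continuousOn
  refine ⟨B, fun z hz => ?_⟩
  have hne : ∀ Y ∈ ball (0 : ℂ) (M + 1), f.eval Y - z ≠ 0 := by
    intro Y hY h
    have h1 := hB Y (ball_subset_closedBall hY)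
    rw [sub_eq_zero] at h
    rw [h] at h1
    linarith
  have hΦ : DifferentiableOn ℂ (fun Y => Y * fd f Y / (f.eval Y - z)) (ball 0 (M + 1)) := by
    refine DifferentiableOn.div ?_ ?_ hne
    · exact (differentiable_id.mul f.derivative.differentiable).differentiableOn
    · exact (f.differentiable.sub_const z).differentiableOn
  obtain ⟨P, hP⟩ := hΦ.isExactOn_ball
  refine circleIntegral.integral_eq_zero_of_hasDerivWithinAt (f := fun ζ => P (y ζ)) hr.le ?_
  intro ζ hζ
  have h1 : HasDerivAt y (deriv y ζ) ζ := (hy.differentiableAt (hN.mem_nhds (hs hζ))).hasDerivAt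
  have h2 : y ζ ∈ ball (0 : ℂ) (M + 1) := by
    rw [mem_ball_zero_iff]
    have := hM ζ hζ
    linarith
  have h3 := (hP (y ζ) h2).comp ζ h1
  have h4 : deriv G ζ = fd f (y ζ) * deriv y ζ := by
    have h5 : HasDerivAt (fun w => f.eval (y w)) (f.derivative.eval (y ζ) * deriv y ζ) ζ :=
      (f.hasDerivAt (y ζ)).comp ζ h1
    have h6 : G =ᶠ[𝓝 ζ] fun w => f.eval (y w) := by
      filter_upwards [hN.mem_nhds (hs hζ)] with w hw
      exact (hG w hw).symm
    rw [h6.deriv_eq, h5.deriv]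
    rfl
  refine (h3.congr_deriv ?_).hasDerivWithinAt
  rw [h4, ← hG ζ (hs hζ)]
  ring

theorem PEX_zero (f : SE) {G y : ℂ → ℂ} {a w : ℂ} {r₁ r r₂ : ℝ}
    (hG : DifferentiableOn ℂ G (ball a r₂))
    (hinj : InjOn G (ball a r₂)) (h0 : 0 ≤ r₁)
    (hy : DifferentiableOn ℂ y {w | r₁ < ‖w - a‖ ∧ ‖w - a‖ < r₂})
    (hf : ∀ w, r₁ < ‖w - a‖ → ‖w - a‖ < r₂ → f.eval (y w) = G w)
    (h1 : r₁ < r) (h2 : r < ‖w - a‖) (h3 : ‖w - a‖ < r₂) :
    (∮ ζ in C(a, r), y ζ * deriv G ζ / (G ζ - G w)) = 0 := by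
  set N : Set ℂ := {w | r₁ < ‖w - a‖ ∧ ‖w - a‖ < r₂} with hN
  have hNo : IsOpen N := by
    have h : Continuous fun w : ℂ => ‖w - a‖ := (continuous_id.sub continuous_const).norm
    exact (isOpen_lt continuous_const h).inter (isOpen_lt h continuous_const)
  have hNb : N ⊆ ball a r₂ := fun z hz => by
    rw [mem_ball, dist_eq_norm]
    exact hz.2
  have hr : 0 < r := h0.trans_lt h1
  have hsN : sphere a r ⊆ N := by
    intro ζ hζ
    rw [mem_sphere, dist_eq_norm] at hζ
    exact ⟨by rw [hζ]; exact h1, by rw [hζ]; linarith⟩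
  obtain ⟨B, hB⟩ := PEX_far f y G a r N hr hNo hsN hy (fun w hw => hf w hw.1 hw.2)
  have hcb : closedBall a r ⊆ ball a r₂ := closedBall_subset_ball (by linarith)
  have hGc : ContinuousOn G (closedBall a r) := hG.continuousOn.mono hcb
  obtain ⟨wm, hwm, hmax⟩ := (isCompact_closedBall a r).exists_isMaxOn
    ⟨a, mem_closedBall_self hr.le⟩ (Complex.continuous_re.comp_continuousOn hGc)
  set M' : ℝ := (G wm).re with hM'
  have hmax' : ∀ ζ ∈ closedBall a r, (G ζ).re ≤ M' := fun ζ hζ => hmax hζ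
  set A : Set ℂ := {w : ℂ | r < ‖w - a‖ ∧ ‖w - a‖ < r₂} with hA
  have hAb : A ⊆ ball a r₂ := fun z hz => by
    rw [mem_ball, dist_eq_norm]
    exact hz.2
  set U : Set ℂ := {z : ℂ | M' < z.re} ∪ G '' A with hU
  -- a common point
  have hwmb : wm ∈ ball a r₂ := hcb hwm
  have hmap : Filter.map G (𝓝 wm) = 𝓝 (G wm) := by
    have e1 : AnalyticAt ℂ G wm := hG.analyticAt (isOpen_ball.mem_nhds hwmb)
    obtain ⟨e, he, hsub⟩ := Metric.isOpen_iff.1 isOpen_ball wm hwmb
    exact e1.hasStrictDerivAt.map_nhds_eq (EVT_deriv he (hG.mono hsub) (hinj.mono hsub))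
  have himg : G '' ball a r₂ ∈ 𝓝 (G wm) := by
    rw [← hmap]
    exact Filter.image_mem_map (isOpen_ball.mem_nhds hwmb)
  obtain ⟨ε, hε, hεs⟩ := Metric.mem_nhds_iff.1 himg
  have hp : G wm + ((ε / 2 : ℝ) : ℂ) ∈ G '' ball a r₂ := by
    apply hεs
    rw [mem_ball, dist_eq_norm, add_sub_cancel_left, Complex.norm_real,
      Real.norm_of_nonneg (by positivity)]
    linarith
  obtain ⟨w', hw', hGw'⟩ := hp
  have hre : (G w').re = M' + ε / 2 := by
    rw [hGw', Complex.add_re, Complex.ofReal_re]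
  have hw'A : w' ∈ A := by
    refine ⟨?_, by rw [mem_ball, dist_eq_norm] at hw'; exact hw'⟩
    by_contra hcon
    have e1 : w' ∈ closedBall a r := by
      rw [mem_closedBall, dist_eq_norm]
      exact not_lt.1 hcon
    have e2 := hmax' w' e1
    rw [hre] at e2
    linarith
  have hGA : ContinuousOn G A := hG.continuousOn.mono hAb
  have hr2 : 0 < r₂ := by linarith
  have hpre : IsPreconnected U :=
    IsPreconnected.union (G w') (by show M' < (G w').re; rw [hre]; linarith) ⟨w', hw'A, rfl⟩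
      (convex_halfSpace_re_gt M').isPreconnected (PEX_ring a r r₂ hr hr2 G hGA)
  -- U avoids the curve
  have hUc : U ⊆ (G '' sphere a r)ᶜ := by
    rintro z hz ⟨ζ, hζ, rfl⟩
    rcases hz with hz | ⟨v, hv, hGv⟩
    · have e1 : M' < (G ζ).re := hz
      have e2 := hmax' ζ (sphere_subset_closedBall hζ)
      linarith
    · have e1 := hinj (hAb hv) (hcb (sphere_subset_closedBall hζ)) hGv
      rw [e1] at hv
      have e2 := hv.1
      rw [mem_sphere, dist_eq_norm] at hζ
      linarith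
  have hcurve : IsOpen (G '' sphere a r)ᶜ :=
    ((isCompact_sphere a r).image_of_continuousOn
      (hGc.mono sphere_subset_closedBall)).isClosed.isOpen_compl
  have hS := PEX_param (fun ζ => y ζ * deriv G ζ) G a r hr
    ((hy.continuousOn.mono hsN).mul
      ((hG.deriv isOpen_ball).continuousOn.mono (sphere_subset_closedBall.trans hcb)))
    (hGc.mono sphere_subset_closedBall)
  have hSan : AnalyticOnNhd ℂ (fun z => ∮ ζ in C(a, r), y ζ * deriv G ζ / (G ζ - z)) U :=
    (hS.analyticOnNhd hcurve).mono hUc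
  -- it vanishes far away
  set z₁ : ℂ := ((max |B| |M'| + 1 : ℝ) : ℂ) with hz₁
  have hz₁U : z₁ ∈ U := by
    left
    show M' < z₁.re
    rw [hz₁, Complex.ofReal_re]
    have e1 := le_max_right |B| |M'|
    have e2 := le_abs_self M'
    linarith
  have hz₁B : B < ‖z₁‖ := by
    rw [hz₁, Complex.norm_real, Real.norm_of_nonneg (by positivity)]
    have e1 := le_max_left |B| |M'|
    have e2 := le_abs_self B
    linarith
  have hev : (fun z => ∮ ζ in C(a, r), y ζ * deriv G ζ / (G ζ - z)) =ᶠ[𝓝 z₁] 0 := by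
    have e1 : ∀ᶠ z : ℂ in 𝓝 z₁, B < ‖z‖ := continuous_norm.continuousAt.eventually (lt_mem_nhds hz₁B)
    filter_upwards [e1] with z hz
    exact hB z hz
  have hzero := hSan.eqOn_zero_of_preconnected_of_eventuallyEq_zero hpre hz₁U hev
  exact hzero (show G w ∈ U from Or.inr ⟨w, ⟨h2, h3⟩, rfl⟩)

theorem PEX : PEX_stmt := by
  intro f G y a r₁ r₂ hf1 h0 h12 hG hinj hy hf
  set N : Set ℂ := {w | r₁ < ‖w - a‖ ∧ ‖w - a‖ < r₂} with hN
  have hNo : IsOpen N := by
    have h : Continuous fun w : ℂ => ‖w - a‖ := (continuous_id.sub continuous_const).norm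
    exact (isOpen_lt continuous_const h).inter (isOpen_lt h continuous_const)
  have hNb : N ⊆ ball a r₂ := fun z hz => by
    rw [mem_ball, dist_eq_norm]
    exact hz.2
  set R : ℝ := (r₁ + r₂) / 2 with hR
  have hR1 : r₁ < R := by rw [hR]; linarith
  have hR2 : R < r₂ := by rw [hR]; linarith
  have hR0 : 0 < R := by linarith
  have hcb : closedBall a R ⊆ ball a r₂ := closedBall_subset_ball hR2
  have hsN : sphere a R ⊆ N := by
    intro ζ hζ
    rw [mem_sphere, dist_eq_norm] at hζ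
    exact ⟨by rw [hζ]; exact hR1, by rw [hζ]; exact hR2⟩
  set F : ℂ → ℂ := fun w => (2 * Real.pi * I)⁻¹ * ∮ ζ in C(a, R), y ζ * deriv G ζ / (G ζ - G w)
    with hF
  have hGc : ContinuousOn G (sphere a R) := hG.continuousOn.mono (sphere_subset_closedBall.trans hcb)
  have hcurve : IsOpen (G '' sphere a R)ᶜ :=
    ((isCompact_sphere a R).image_of_continuousOn hGc).isClosed.isOpen_compl
  have hS := PEX_param (fun ζ => y ζ * deriv G ζ) G a R hR0
    ((hy.continuousOn.mono hsN).mul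
      ((hG.deriv isOpen_ball).continuousOn.mono (sphere_subset_closedBall.trans hcb))) hGc
  have hFd : ∀ w ∈ ball a R, DifferentiableAt ℂ F w := by
    intro w hw
    have hwb : w ∈ ball a r₂ := hcb (ball_subset_closedBall hw)
    have e1 : G w ∈ (G '' sphere a R)ᶜ := by
      rintro ⟨ζ, hζ, he⟩
      have e2 := hinj (hcb (sphere_subset_closedBall hζ)) hwb he
      rw [e2, mem_sphere] at hζ
      rw [mem_ball] at hw
      linarith
    have e2 := (hS.differentiableAt (hcurve.mem_nhds e1)).comp w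
      (hG.differentiableAt (isOpen_ball.mem_nhds hwb))
    exact e2.const_mul _
  have hFy : ∀ w, r₁ < ‖w - a‖ → ‖w - a‖ < R → F w = y w := by
    intro w h1 h2
    set r : ℝ := (r₁ + ‖w - a‖) / 2 with hr
    have e1 : r₁ < r := by rw [hr]; linarith
    have e2 : r < ‖w - a‖ := by rw [hr]; linarith
    have e3 := PEX_res hG hinj h0 hy e1 e2 h2 hR2
    have e4 := PEX_zero f hG hinj h0 hy hf e1 e2 (h2.trans hR2)
    have hpi : (2 * Real.pi * I : ℂ) ≠ 0 := by
      simp [Real.pi_ne_zero]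
    show (2 * Real.pi * I)⁻¹ * (∮ ζ in C(a, R), y ζ * deriv G ζ / (G ζ - G w)) = y w
    rw [e3, e4, zero_add, ← mul_assoc, inv_mul_cancel₀ hpi, one_mul]
  set Y : ℂ → ℂ := fun w => if ‖w - a‖ ≤ r₁ then F w else y w with hY
  have hYy : ∀ w, r₁ < ‖w - a‖ → Y w = y w := fun w h => if_neg (not_le.2 h)
  have hYF : ∀ w ∈ ball a R, Y w = F w := by
    intro w hw
    rw [mem_ball, dist_eq_norm] at hw
    by_cases h : ‖w - a‖ ≤ r₁
    · exact if_pos h
    · rw [hYy w (not_le.1 h), hFy w (not_le.1 h) hw]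
  have hYd : DifferentiableOn ℂ Y (ball a r₂) := by
    intro w hw
    refine DifferentiableAt.differentiableWithinAt ?_
    by_cases h : ‖w - a‖ < R
    · have hwR : w ∈ ball a R := by rw [mem_ball, dist_eq_norm]; exact h
      refine (hFd w hwR).congr_of_eventuallyEq ?_
      filter_upwards [isOpen_ball.mem_nhds hwR] with v hv
      exact hYF v hv
    · have hwN : w ∈ N := ⟨by linarith [not_lt.1 h], by rw [mem_ball, dist_eq_norm] at hw; exact hw⟩
      refine (hy.differentiableAt (hNo.mem_nhds hwN)).congr_of_eventuallyEq ?_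
      filter_upwards [hNo.mem_nhds hwN] with v hv
      exact hYy v hv.1
  refine ⟨Y, hYd, fun w h1 _ => hYy w h1, ?_⟩
  -- the identity theorem
  set w₁ : ℂ := a + ((R : ℝ) : ℂ) with hw₁
  have hw₁n : ‖w₁ - a‖ = R := by
    rw [hw₁, add_sub_cancel_left, Complex.norm_real, Real.norm_of_nonneg hR0.le]
  have hw₁N : w₁ ∈ N := ⟨by rw [hw₁n]; exact hR1, by rw [hw₁n]; exact hR2⟩
  have hA : AnalyticOnNhd ℂ (fun w => f.eval (Y w) - G w) (ball a r₂) := by
    refine DifferentiableOn.analyticOnNhd ?_ isOpen_ball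
    exact (f.differentiable.comp_differentiableOn hYd).sub hG
  have hev : (fun w => f.eval (Y w) - G w) =ᶠ[𝓝 w₁] 0 := by
    filter_upwards [hNo.mem_nhds hw₁N] with v hv
    show f.eval (Y v) - G v = 0
    rw [hYy v hv.1, hf v hv.1 hv.2, sub_self]
  have hzero := hA.eqOn_zero_of_preconnected_of_eventuallyEq_zero
    (convex_ball a r₂).isPreconnected (hNb hw₁N) hev
  intro w hw
  exact sub_eq_zero.1 (hzero hw)

end YPPS
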