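import Pool.Agent.helper61.CSW.PP.SpecA

/-!
# csw:PTN (helper96): a countable measurable partition into sets of injectivity
-/

set_option autoImplicit false

open Complex Metric Set Filter Topology MeasureTheory MPS

noncomputable section

open CSS (SE)

namespace YPPS

theorem PTN_crit (f : SE) : {z : ℂ | deriv f.f z = 0}.Countable := by
  have hd : Differentiable ℂ f.f := f.dif
  have han : ∀ z, AnalyticAt ℂ (deriv f.f) z := fun z => (hd.analyticAt z).deriv
  have h : ∀ z ∈ {z : ℂ | deriv f.f z = 0}, ({z} : Set ℂ) ∈ 𝓝[{z : ℂ | deriv f.f z = 0}] z := by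
    intro z hz
    rcases (han z).eventually_eq_zero_or_eventually_ne_zero with h1 | h1
    · exfalso
      have h2 : EqOn (deriv f.f) 0 univ :=
        AnalyticOnNhd.eqOn_zero_of_preconnected_of_eventuallyEq_zero (fun z _ => han z) isPreconnected_univ (mem_univ z) h1
      have h3 : ∀ x y, f.f x = f.f y := is_const_of_deriv_eq_zero hd (fun x => h2 (mem_univ x))
      obtain ⟨w, hw⟩ := f.tra (Polynomial.C (f.f 0))
      apply hw
      rw [Polynomial.eval_C]
      exact h3 w 0
    · rw [eventually_nhdsWithin_iff] at h1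
      rw [mem_nhdsWithin_iff_eventually]
      filter_upwards [h1] with w hw hw2
      by_contra hne
      exact hw hne hw2
  obtain ⟨t, -, htc, htU⟩ := TopologicalSpace.countable_cover_nhdsWithin h
  exact (htc.mono (by
    intro z hz
    obtain ⟨x, hx, hzx⟩ := mem_iUnion₂.1 (htU hz)
    rw [mem_singleton_iff.1 hzx]
    exact hx))

theorem PTN_loc (f : SE) (z : ℂ) (hz : deriv f.f z ≠ 0) : ∃ U : Set ℂ, IsOpen U ∧ z ∈ U ∧ InjOn f.f U := by
  have h1 : HasStrictDerivAt f.f (deriv f.f z) z := (f.dif.analyticAt z).hasStrictDerivAt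
  have h2 := h1.hasStrictFDerivAt_equiv hz
  refine ⟨(h2.toOpenPartialHomeomorph f.f).source, (h2.toOpenPartialHomeomorph f.f).open_source, h2.mem_toOpenPartialHomeomorph_source, ?_⟩
  exact (h2.toOpenPartialHomeomorph f.f).injOn

theorem PTN : PTN_stmt := by
  intro f
  set C : Set ℂ := {z : ℂ | deriv f.f z = 0} with hC
  have hCc : C.Countable := PTN_crit f
  have hN : ∀ z : ℂ, ∃ N : Set ℂ, MeasurableSet N ∧ InjOn f.f N ∧ z ∈ N ∧ (z ∉ C → N ∈ 𝓝 z) := by
    intro z
    by_cases hz : z ∈ C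
    · exact ⟨{z}, measurableSet_singleton z, injOn_singleton _ _, mem_singleton z, fun h => absurd hz h⟩
    · obtain ⟨U, hU, hzU, hi⟩ := PTN_loc f z hz
      exact ⟨U, hU.measurableSet, hi, hzU, fun _ => hU.mem_nhds hzU⟩
  choose N hNm hNi hNz hNn using hN
  obtain ⟨t, -, htc, htU⟩ := TopologicalSpace.countable_cover_nhdsWithin (f := N) (s := Cᶜ)
    (fun x hx => mem_nhdsWithin_of_mem_nhds (hNn x hx))
  have hT : (t ∪ C).Countable := htc.union hCc
  have hcov : ∀ z : ℂ, ∃ x ∈ t ∪ C, z ∈ N x := by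
    intro z
    by_cases hz : z ∈ C
    · exact ⟨z, Or.inr hz, hNz z⟩
    · obtain ⟨x, hx, hzx⟩ := mem_iUnion₂.1 (htU hz)
      exact ⟨x, Or.inl hx, hzx⟩
  have hne : (t ∪ C).Nonempty := by
    obtain ⟨x, hx, -⟩ := hcov 0
    exact ⟨x, hx⟩
  obtain ⟨e, he⟩ := hT.exists_eq_range hne
  refine ⟨disjointed (fun n => N (e n)), fun n => MeasurableSet.disjointed (fun i => hNm (e i)) n, disjoint_disjointed _, ?_, fun n => ?_⟩
  · rw [iUnion_disjointed, eq_univ_iff_forall]
    intro z
    obtain ⟨x, hx, hzx⟩ := hcov z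
    rw [he] at hx
    obtain ⟨n, rfl⟩ := hx
    exact mem_iUnion.2 ⟨n, hzx⟩
  · exact (hNi (e n)).mono (disjointed_subset _ n)

end YPPS
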