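import Pool.Agent.helper61.CSW.PP.SpecA

/-! csw:RGB: the branch at a preimage which is not a critical point, over a disc whose only singular value can be the centre. -/

set_option autoImplicit false

open Complex Metric Set Filter Topology MeasureTheory MPS

noncomputable section

open CSS (SE)

namespace YPPS

/-- the local inverse. -/
theorem RGB_loc (f : SE) (z y : ℂ) (δ : ℝ) (hfy : f.eval y = z) (hd : fd f y ≠ 0) (hδ : 0 < δ) :
    ∃ (ε : ℝ) (L : ℂ → ℂ), 0 < ε ∧ ε ≤ δ ∧ DifferentiableOn ℂ L (ball z ε) ∧ L z = y ∧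
      ∀ w ∈ ball z ε, f.eval (L w) = w ∧ fd f (L w) ≠ 0 := by
  have hfa : AnalyticAt ℂ (fun y => f.eval y) y :=
    (f.differentiable.differentiableOn (s := univ)).analyticAt univ_mem
  have hfd : deriv (fun y => f.eval y) y ≠ 0 := hd
  set L : ℂ → ℂ := hfa.hasStrictDerivAt.localInverse _ _ _ hfd with hL
  have hLa : AnalyticAt ℂ L (f.eval y) := hfa.analyticAt_localInverse hfd
  have hLl : ∀ᶠ x in 𝓝 y, L (f.eval x) = x := hfa.hasStrictDerivAt.eventually_left_inverse hfd
  have hLr : ∀ᶠ w in 𝓝 (f.eval y), f.eval (L w) = w := hfa.hasStrictDerivAt.eventually_right_inverse hfd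
  have hLz : L z = y := by
    rw [← hfy]
    exact hLl.self_of_nhds
  rw [hfy] at hLa hLr
  have h3 : ∀ᶠ w in 𝓝 z, fd f (L w) ≠ 0 := by
    have hc : ContinuousAt (fun w => fd f (L w)) z :=
      (fd_cont f).continuousAt.comp hLa.continuousAt
    have : fd f (L z) ≠ 0 := by rw [hLz]; exact hd
    exact hc.eventually_ne this
  obtain ⟨ε, hε, hb⟩ := Metric.eventually_nhds_iff_ball.1 (hLa.eventually_analyticAt.and (hLr.and h3))
  refine ⟨min ε δ, L, lt_min hε hδ, min_le_right _ _, ?_, hLz, ?_⟩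
  · intro w hw
    exact (hb w (ball_subset_ball (min_le_left _ _) hw)).1.differentiableAt.differentiableWithinAt
  · intro w hw
    exact (hb w (ball_subset_ball (min_le_left _ _) hw)).2

/-- a left half plane is open. -/
theorem RGB_op (a : ℝ) : IsOpen {ξ : ℂ | ξ.re < a} := isOpen_lt Complex.continuous_re continuous_const

/-- a left half plane is convex. -/
theorem RGB_cx (a : ℝ) : Convex ℝ {ξ : ℂ | ξ.re < a} := convex_halfSpace_re_lt a

/-- exp maps the half plane into the ball. -/
theorem RGB_exp (a : ℝ) (ha : 0 < a) (ξ : ℂ) (h : ξ.re < Real.log a) : ‖Complex.exp ξ‖ < a := by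
  rw [Complex.norm_exp]
  calc Real.exp ξ.re < Real.exp (Real.log a) := Real.exp_lt_exp.2 h
    _ = a := Real.exp_log ha

/-- log maps the punctured ball into the half plane. -/
theorem RGB_log (a : ℝ) (u : ℂ) (hu : u ≠ 0) (h : ‖u‖ < a) : (Complex.log u).re < Real.log a := by
  rw [Complex.log_re]
  exact Real.log_lt_log (norm_pos_iff.2 hu) h

theorem RGB (hLUN : LUN_stmt) (hLIFT : LIFT_stmt) : RGB_stmt := by
  intro f z y δ hfy hd hδ hCV
  have hn : 1 ≤ f.natDegree := le_trans (by norm_num) f.two_le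
  obtain ⟨ε, L, hε, hεδ, hLd, hLz, hLe⟩ := RGB_loc f z y δ hfy hd hδ
  have hF : ∀ ξ : ℂ, ξ.re < Real.log δ → z + Complex.exp ξ ∈ ball z δ := by
    intro ξ hξ
    rw [mem_ball_iff_norm, add_sub_cancel_left]
    exact RGB_exp δ hδ ξ hξ
  have hFe : ∀ ξ : ℂ, ξ.re < Real.log ε → z + Complex.exp ξ ∈ ball z ε := by
    intro ξ hξ
    rw [mem_ball_iff_norm, add_sub_cancel_left]
    exact RGB_exp ε hε ξ hξ
  have hFz : ∀ ξ : ℂ, z + Complex.exp ξ ≠ z := by
    intro ξ h
    exact Complex.exp_ne_zero ξ (add_eq_left.1 h)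
  have hlog : Real.log ε ≤ Real.log δ := Real.log_le_log hε hεδ
  set ξ₀ : ℂ := ((Real.log ε - 1 : ℝ) : ℂ) with hξ₀
  have hξe : ξ₀.re < Real.log ε := by rw [hξ₀, Complex.ofReal_re]; linarith
  have hξd : ξ₀.re < Real.log δ := lt_of_lt_of_le hξe hlog
  have hFd : Differentiable ℂ (fun ξ : ℂ => z + Complex.exp ξ) :=
    (differentiable_const z).add Complex.differentiable_exp
  obtain ⟨Y, hYd, hY0, hYe'⟩ := hLIFT f {ξ : ℂ | ξ.re < Real.log δ} (fun ξ => z + Complex.exp ξ) ξ₀
    (L (z + Complex.exp ξ₀)) hn (RGB_op _) (RGB_cx _) hFd.differentiableOn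
    (fun w hw => hCV _ (hF w hw) (hFz w)) hξd (hLe _ (hFe _ hξe)).1
  have hYe : ∀ ξ : ℂ, ξ.re < Real.log δ → f.eval (Y ξ) = z + Complex.exp ξ ∧ fd f (Y ξ) ≠ 0 :=
    fun ξ hξ => hYe' ξ hξ
  have hYL : EqOn Y (fun ξ => L (z + Complex.exp ξ)) {ξ : ℂ | ξ.re < Real.log ε} := by
    refine hLUN f {ξ : ℂ | ξ.re < Real.log ε} Y (fun ξ => L (z + Complex.exp ξ)) ξ₀ (RGB_op _)
      (RGB_cx _).isPreconnected (hYd.continuousOn.mono fun ξ hξ => lt_of_lt_of_le hξ hlog) ?_ ?_ ?_ hξe hY0
    · exact hLd.continuousOn.comp hFd.continuous.continuousOn fun ξ hξ => hFe ξ hξ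
    · intro ξ hξ
      rw [(hYe ξ (lt_of_lt_of_le hξ hlog)).1, (hLe _ (hFe ξ hξ)).1]
    · intro ξ hξ
      exact (hYe ξ (lt_of_lt_of_le hξ hlog)).2
  have hre : ∀ (n : ℤ) (ξ : ℂ), (ξ + n * (2 * Real.pi * Complex.I)).re = ξ.re := by
    intro n ξ
    have : (n : ℂ) * (2 * Real.pi * Complex.I) = ((n * (2 * Real.pi) : ℝ) : ℂ) * Complex.I := by
      push_cast; ring
    rw [this, Complex.add_re, Complex.re_ofReal_mul, Complex.I_re]
    ring
  have hexp : ∀ (n : ℤ) (ξ : ℂ), Complex.exp (ξ + n * (2 * Real.pi * Complex.I)) = Complex.exp ξ := by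
    intro n ξ
    exact Complex.exp_eq_exp_iff_exists_int.2 ⟨n, rfl⟩
  have hper : ∀ (n : ℤ) (ξ : ℂ), ξ.re < Real.log δ → Y (ξ + n * (2 * Real.pi * Complex.I)) = Y ξ := by
    intro n
    have h1 : EqOn (fun ξ => Y (ξ + n * (2 * Real.pi * Complex.I))) Y {ξ : ℂ | ξ.re < Real.log δ} := by
      refine hLUN f {ξ : ℂ | ξ.re < Real.log δ} (fun ξ => Y (ξ + n * (2 * Real.pi * Complex.I))) Y ξ₀
        (RGB_op _) (RGB_cx _).isPreconnected ?_ hYd.continuousOn ?_ ?_ hξd ?_
      · refine hYd.continuousOn.comp (by fun_prop) fun ξ hξ => ?_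
        show (ξ + n * (2 * Real.pi * Complex.I)).re < Real.log δ
        rw [hre]
        exact hξ
      · intro ξ hξ
        have hξ' : (ξ + n * (2 * Real.pi * Complex.I)).re < Real.log δ := by rw [hre]; exact hξ
        show f.eval (Y (ξ + n * (2 * Real.pi * Complex.I))) = f.eval (Y ξ)
        rw [(hYe _ hξ').1, (hYe ξ hξ).1, hexp]
      · intro ξ hξ
        have hξ' : (ξ + n * (2 * Real.pi * Complex.I)).re < Real.log δ := by rw [hre]; exact hξ
        exact (hYe _ hξ').2
      · show Y (ξ₀ + n * (2 * Real.pi * Complex.I)) = Y ξ₀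
        rw [hYL (x := ξ₀ + n * (2 * Real.pi * Complex.I)) (by
          show (ξ₀ + n * (2 * Real.pi * Complex.I)).re < Real.log ε
          rw [hre]; exact hξe), hYL (x := ξ₀) hξe]
        show L (z + Complex.exp (ξ₀ + n * (2 * Real.pi * Complex.I))) = L (z + Complex.exp ξ₀)
        rw [hexp]
    exact fun ξ hξ => h1 hξ
  have hsame : ∀ ξ ξ' : ℂ, Complex.exp ξ = Complex.exp ξ' → ξ'.re < Real.log δ → Y ξ = Y ξ' := by
    intro ξ ξ' h1 h2
    obtain ⟨n, hn⟩ := Complex.exp_eq_exp_iff_exists_int.1 h1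
    rw [hn]
    exact hper n ξ' h2
  classical
  have hlogd : ∀ w ∈ ball z δ, w ≠ z → (Complex.log (w - z)).re < Real.log δ := by
    intro w hw hwz
    exact RGB_log δ _ (sub_ne_zero.2 hwz) (mem_ball_iff_norm.1 hw)
  refine ⟨fun w => if w = z then y else Y (Complex.log (w - z)), ?_, ?_, ?_⟩
  · intro w hw
    refine DifferentiableAt.differentiableWithinAt ?_
    by_cases hwz : w = z
    · have h1 : (fun w => if w = z then y else Y (Complex.log (w - z))) =ᶠ[𝓝 w] L := by
        rw [hwz]
        filter_upwards [ball_mem_nhds z hε] with x hx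
        by_cases hxz : x = z
        · show (if x = z then y else Y (Complex.log (x - z))) = L x
          rw [if_pos hxz, hxz, hLz]
        · show (if x = z then y else Y (Complex.log (x - z))) = L x
          rw [if_neg hxz, hYL (x := Complex.log (x - z))
            (RGB_log ε _ (sub_ne_zero.2 hxz) (mem_ball_iff_norm.1 hx))]
          show L (z + Complex.exp (Complex.log (x - z))) = L x
          rw [Complex.exp_log (sub_ne_zero.2 hxz), add_sub_cancel]
      refine DifferentiableAt.congr_of_eventuallyEq ?_ h1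
      rw [hwz]
      exact hLd.differentiableAt (ball_mem_nhds z hε)
    · have hc : w - z ≠ 0 := sub_ne_zero.2 hwz
      have h1 : (fun w => if w = z then y else Y (Complex.log (w - z))) =ᶠ[𝓝 w]
          fun x => Y (Complex.log ((x - z) / (w - z)) + Complex.log (w - z)) := by
        have e1 : ∀ᶠ x in 𝓝 w, x ≠ z := eventually_ne_nhds hwz
        have e2 : ∀ᶠ x in 𝓝 w, x ∈ ball z δ := isOpen_ball.mem_nhds hw
        filter_upwards [e1, e2] with x hx1 hx2
        show (if x = z then y else Y (Complex.log (x - z))) =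
          Y (Complex.log ((x - z) / (w - z)) + Complex.log (w - z))
        rw [if_neg hx1]
        refine (hsame _ _ ?_ (hlogd x hx2 hx1)).symm
        rw [Complex.exp_add, Complex.exp_log (div_ne_zero (sub_ne_zero.2 hx1) hc), Complex.exp_log hc,
          Complex.exp_log (sub_ne_zero.2 hx1)]
        field_simp
      refine DifferentiableAt.congr_of_eventuallyEq ?_ h1
      have h2 : (w - z) / (w - z) = 1 := div_self hc
      have h3 : DifferentiableAt ℂ (fun x : ℂ => Complex.log ((x - z) / (w - z)) + Complex.log (w - z)) w := by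
        have h31 : DifferentiableAt ℂ (fun x : ℂ => (x - z) / (w - z)) w :=
          ((differentiableAt_id).sub_const z).div_const (w - z)
        have h32 : (w - z) / (w - z) ∈ Complex.slitPlane := by
          rw [h2]
          exact Complex.one_mem_slitPlane
        exact (h31.clog h32).add_const _
      have h4 : Complex.log ((w - z) / (w - z)) + Complex.log (w - z) = Complex.log (w - z) := by
        rw [h2, Complex.log_one, zero_add]
      have h5 : DifferentiableAt ℂ Y (Complex.log ((w - z) / (w - z)) + Complex.log (w - z)) := by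
        rw [h4]
        exact hYd.differentiableAt ((RGB_op _).mem_nhds (hlogd w hw hwz))
      exact DifferentiableAt.fun_comp' w h5 h3
  · show (if z = z then y else Y (Complex.log (z - z))) = y
    rw [if_pos rfl]
  · intro w hw
    by_cases hwz : w = z
    · show f.eval (if w = z then y else Y (Complex.log (w - z))) = w ∧ fd f (if w = z then y else Y (Complex.log (w - z))) ≠ 0
      rw [if_pos hwz, hwz]
      exact ⟨hfy, hd⟩
    · show f.eval (if w = z then y else Y (Complex.log (w - z))) = w ∧ fd f (if w = z then y else Y (Complex.log (w - z))) ≠ 0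
      rw [if_neg hwz]
      refine ⟨?_, (hYe _ (hlogd w hw hwz)).2⟩
      rw [(hYe _ (hlogd w hw hwz)).1, Complex.exp_log (sub_ne_zero.2 hwz), add_sub_cancel]

end YPPS
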