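import Pool.Agent.helper61.CSW.PP.SpecA
import Pool.Agent.helper25.MP.HAR

/-!
# Project csw: (MP_70a088_an): SMB, summability over the preimages
-/

set_option autoImplicit false

open Complex Metric Set Filter Topology MeasureTheory MPS

noncomputable section

open CSS (SE)

namespace YPPS

theorem SMB_det (A : ℂ →L[ℂ] ℂ) : (A.restrictScalars ℝ).det = ‖A 1‖ ^ 2 := by
  have h1 : (A.restrictScalars ℝ).det = LinearMap.det ((A : ℂ →ₗ[ℂ] ℂ).restrictScalars ℝ) := rfl
  rw [h1, LinearMap.det_restrictScalars, Algebra.norm_complex_apply, LinearMap.det_ring,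
    Complex.sq_norm]
  rfl

/-- one branch: mean value property and change of variables. -/
theorem SMB_one (B g : ℂ → ℂ) (z : ℂ) (δ : ℝ) (hδ : 0 < δ) (hg : DifferentiableOn ℂ g (ball z δ))
    (hinj : InjOn g (ball z δ)) (hB : ∀ w ∈ ball z δ, DifferentiableAt ℂ B (g w)) :
    ENNReal.ofReal (Real.pi * (δ / 2) ^ 2 * (‖B (g z)‖ * ‖deriv g z‖ ^ 2)) ≤
      ∫⁻ x in g '' ball z (δ / 2), ‖B x‖ₑ := by
  have hsub : ball z (δ / 2) ⊆ ball z δ := ball_subset_ball (by linarith)
  have hcl : closedBall z (δ / 2) ⊆ ball z δ := closedBall_subset_ball (by linarith)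
  have hdg : DifferentiableOn ℂ (deriv g) (ball z δ) := hg.deriv isOpen_ball
  have hH : DifferentiableOn ℂ (fun w => B (g w) * deriv g w ^ 2) (ball z δ) := by
    intro w hw
    have h1 : DifferentiableAt ℂ g w := hg.differentiableAt (isOpen_ball.mem_nhds hw)
    have h2 : DifferentiableAt ℂ (deriv g) w := hdg.differentiableAt (isOpen_ball.mem_nhds hw)
    exact (((hB w hw).comp w h1).mul (h2.pow 2)).differentiableWithinAt
  have e1 := HAR_area (a := z) (r := δ) (ρ := δ / 2) (by positivity) (by linarith) hH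
  have hint : IntegrableOn (fun w => B (g w) * deriv g w ^ 2) (ball z (δ / 2)) :=
    ((hH.continuousOn.mono hcl).integrableOn_compact (isCompact_closedBall _ _)).mono_set
      ball_subset_closedBall
  have e2 : Real.pi * (δ / 2) ^ 2 * (‖B (g z)‖ * ‖deriv g z‖ ^ 2) ≤
      ∫ w in ball z (δ / 2), ‖B (g w) * deriv g w ^ 2‖ := by
    have h1 := norm_integral_le_integral_norm (μ := volume.restrict (ball z (δ / 2)))
      (fun w => B (g w) * deriv g w ^ 2)
    rw [e1, norm_mul, norm_mul, norm_pow, Complex.norm_real, Real.norm_of_nonneg (by positivity)] at h1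
    exact h1
  have e3 : ENNReal.ofReal (∫ w in ball z (δ / 2), ‖B (g w) * deriv g w ^ 2‖) =
      ∫⁻ w in ball z (δ / 2), ‖B (g w) * deriv g w ^ 2‖ₑ :=
    ofReal_integral_norm_eq_lintegral_enorm hint
  refine (ENNReal.ofReal_le_ofReal e2).trans (le_of_eq ?_)
  rw [e3, lintegral_image_eq_lintegral_abs_det_fderiv_mul volume measurableSet_ball
    (f' := fun w => (ContinuousLinearMap.toSpanSingleton ℂ (deriv g w) : ℂ →L[ℂ] ℂ).restrictScalars ℝ) _
    (hinj.mono hsub)]
  · apply setLIntegral_congr_fun measurableSet_ball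
    intro w _
    have h3 : ENNReal.ofReal |((ContinuousLinearMap.toSpanSingleton ℂ (deriv g w) : ℂ →L[ℂ] ℂ).restrictScalars ℝ).det| =
        ENNReal.ofReal (‖deriv g w‖ ^ 2) := by
      rw [SMB_det, abs_of_nonneg (by positivity)]
      simp
    show ‖B (g w) * deriv g w ^ 2‖ₑ = ENNReal.ofReal |((ContinuousLinearMap.toSpanSingleton ℂ (deriv g w) : ℂ →L[ℂ] ℂ).restrictScalars ℝ).det| *
      ‖B (g w)‖ₑ
    rw [h3, enorm_mul, enorm_pow, mul_comm, ENNReal.ofReal_pow (norm_nonneg _), ofReal_norm]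
  · intro w hw
    have h := (hg.differentiableAt (isOpen_ball.mem_nhds (hsub hw))).hasDerivAt.hasFDerivAt.restrictScalars ℝ
    exact h.hasFDerivWithinAt

/-- SMB: summability over the preimages. -/
theorem SMB (hLUN : LUN_stmt) (hRGB : RGB_stmt) : SMB_stmt := by
  classical
  rintro f B ⟨⟨P, hP, hBd⟩, R, hR⟩ z
  suffices hs : Summable (fun y : pre f z => ‖B y‖ / ‖fd f y‖ ^ 2) by
    refine ⟨?_, hs⟩
    refine Summable.of_norm ?_
    refine hs.congr fun y => ?_
    rw [norm_div, norm_pow]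
  -- the radius
  have hfin : (CV f ∪ (fun x => f.eval x) '' P).Finite := (CV_fin f).union (hP.image _)
  obtain ⟨δ, hδ, hδ'⟩ : ∃ δ : ℝ, 0 < δ ∧ ∀ w ∈ ball z δ, w ≠ z → w ∉ CV f ∪ (fun x => f.eval x) '' P := by
    have h1 : IsClosed ((CV f ∪ (fun x => f.eval x) '' P) \ {z}) := (hfin.subset sdiff_subset).isClosed
    have h2 : ((CV f ∪ (fun x => f.eval x) '' P) \ {z})ᶜ ∈ 𝓝 z :=
      h1.isOpen_compl.mem_nhds (fun h => h.2 rfl)
    obtain ⟨δ, hδ, h3⟩ := Metric.mem_nhds_iff.1 h2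
    exact ⟨δ, hδ, fun w hw hne hw' => h3 hw ⟨hw', hne⟩⟩
  have hCV : ∀ w ∈ ball z δ, w ≠ z → w ∉ CV f := fun w hw hne h => hδ' w hw hne (Or.inl h)
  have hPz : ∀ p ∈ P, f.eval p ∈ ball z δ → f.eval p = z := by
    intro p hp h
    by_contra hne
    exact hδ' _ h hne (Or.inr ⟨p, hp, rfl⟩)
  -- the branches
  have hex : ∀ y : ℂ, ∃ g : ℂ → ℂ, f.eval y = z → fd f y ≠ 0 →
      DifferentiableOn ℂ g (ball z δ) ∧ g z = y ∧ ∀ w ∈ ball z δ, f.eval (g w) = w ∧ fd f (g w) ≠ 0 := by
    intro y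
    by_cases hy : f.eval y = z ∧ fd f y ≠ 0
    · obtain ⟨g, hg⟩ := hRGB f z y δ hy.1 hy.2 hδ hCV
      exact ⟨g, fun _ _ => hg⟩
    · exact ⟨id, fun h1 h2 => absurd ⟨h1, h2⟩ hy⟩
  choose g hg using hex
  set Y : Set ℂ := {y | f.eval y = z ∧ fd f y ≠ 0 ∧ y ∉ P} with hY
  have hcont : Continuous fun x => f.eval x := f.continuous
  have hinj : ∀ y ∈ Y, InjOn (g y) (ball z δ) := by
    intro y hy w hw w' hw' h
    obtain ⟨-, -, h3⟩ := hg y hy.1 hy.2.1
    rw [← (h3 w hw).1, ← (h3 w' hw').1, h]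
  -- key: a point of a preconnected open set in the image of a branch
  have hkey : ∀ y ∈ Y, ∀ Ω : Set ℂ, IsOpen Ω → IsPreconnected Ω → (∀ x ∈ Ω, f.eval x ∈ ball z δ) →
      ∀ w ∈ ball z δ, g y w ∈ Ω → ∀ x ∈ Ω, g y (f.eval x) = x := by
    intro y hy Ω hΩ hpre hsub w hw hgw
    obtain ⟨h1, h2, h3⟩ := hg y hy.1 hy.2.1
    have hc : ContinuousOn (fun x => g y (f.eval x)) Ω :=
      h1.continuousOn.comp hcont.continuousOn hsub
    refine hLUN f Ω (fun x => g y (f.eval x)) id (g y w) hΩ hpre hc continuousOn_id ?_ ?_ hgw ?_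
    · intro x hx
      exact (h3 _ (hsub x hx)).1
    · intro x hx
      exact (h3 _ (hsub x hx)).2
    · show g y (f.eval (g y w)) = g y w
      rw [(h3 w hw).1]
  have hnP : ∀ y ∈ Y, ∀ w ∈ ball z δ, g y w ∉ P := by
    intro y hy w hw hp
    obtain ⟨h1, h2, h3⟩ := hg y hy.1 hy.2.1
    have h4 : f.eval (g y w) = w := (h3 w hw).1
    have h5 : f.eval (g y w) = z := hPz _ hp (by rw [h4]; exact hw)
    rw [h4] at h5
    rw [h5, h2] at hp
    exact hy.2.2 hp
  -- small discs about the points of `P` over `z`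
  have hε : ∀ p : ℂ, ∃ ε : ℝ, 0 < ε ∧ (f.eval p = z → ∀ x ∈ ball p ε, f.eval x ∈ ball z δ) := by
    intro p
    by_cases hp : f.eval p = z
    · have h1 : (fun x => f.eval x) ⁻¹' ball z δ ∈ 𝓝 p :=
        (isOpen_ball.preimage hcont).mem_nhds (by
          show f.eval p ∈ ball z δ
          rw [hp]
          exact mem_ball_self hδ)
      obtain ⟨ε, hε, h2⟩ := Metric.mem_nhds_iff.1 h1
      exact ⟨ε, hε, fun _ x hx => h2 hx⟩
    · exact ⟨1, one_pos, fun h => absurd h hp⟩
  choose ε hε0 hε using hε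
  set E : Set ℂ := {x | f.eval x ∈ closedBall z (δ / 2)} ∩ ⋂ p ∈ P, {x | f.eval p = z → x ∉ ball p (ε p)} with hE
  have hEcl : IsClosed E := by
    refine (isClosed_closedBall.preimage hcont).inter (isClosed_biInter fun p _ => ?_)
    by_cases hp : f.eval p = z
    · have : {x : ℂ | f.eval p = z → x ∉ ball p (ε p)} = (ball p (ε p))ᶜ := by
        ext x
        exact ⟨fun h => h hp, fun h _ => h⟩
      rw [this]
      exact isOpen_ball.isClosed_compl
    · have : {x : ℂ | f.eval p = z → x ∉ ball p (ε p)} = univ := by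
        ext x
        exact ⟨fun _ => trivial, fun _ h => absurd h hp⟩
      rw [this]
      exact isClosed_univ
  have hEP : E ⊆ Pᶜ := by
    rintro x ⟨hx1, hx2⟩ hxP
    have h1 : f.eval x = z := hPz x hxP (closedBall_subset_ball (by linarith) hx1)
    exact mem_iInter₂.1 hx2 x hxP h1 (mem_ball_self (hε0 x))
  have hBE : IntegrableOn B E := by
    have h1 : IntegrableOn B (E ∩ closedBall 0 R) :=
      ((hBd.continuousOn.mono hEP).mono inter_subset_left).integrableOn_compact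
        ((isCompact_closedBall (0 : ℂ) R).inter_left hEcl)
    refine (h1.union hR).mono_set ?_
    intro x hx
    by_cases hxR : x ∈ closedBall (0 : ℂ) R
    · exact Or.inl ⟨hx, hxR⟩
    · exact Or.inr hxR
  have hsubE : ∀ y ∈ Y, g y '' ball z (δ / 2) ⊆ E := by
    rintro y hy _ ⟨w, hw, rfl⟩
    obtain ⟨h1, h2, h3⟩ := hg y hy.1 hy.2.1
    have hw' : w ∈ ball z δ := ball_subset_ball (by linarith) hw
    refine ⟨?_, ?_⟩
    · show f.eval (g y w) ∈ closedBall z (δ / 2)
      rw [(h3 w hw').1]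
      exact ball_subset_closedBall hw
    · refine mem_iInter₂.2 fun p hp => ?_
      intro hpz hmem
      have h4 := hkey y hy (ball p (ε p)) isOpen_ball (convex_ball _ _).isPreconnected (hε p hpz) w hw' hmem p
        (mem_ball_self (hε0 p))
      rw [hpz, h2] at h4
      exact hy.2.2 (h4 ▸ hp)
  have hdisj : ∀ y ∈ Y, ∀ y' ∈ Y, y ≠ y' → Disjoint (g y '' ball z (δ / 2)) (g y' '' ball z (δ / 2)) := by
    intro y hy y' hy' hne
    rw [Set.disjoint_left]
    rintro _ ⟨w, hw, rfl⟩ ⟨w', hw', he⟩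
    obtain ⟨h1, h2, h3⟩ := hg y hy.1 hy.2.1
    obtain ⟨h1', h2', h3'⟩ := hg y' hy'.1 hy'.2.1
    have hw1 : w ∈ ball z δ := ball_subset_ball (by linarith) hw
    have hw1' : w' ∈ ball z δ := ball_subset_ball (by linarith) hw'
    have h4 : w = w' := by rw [← (h3 w hw1).1, ← (h3' w' hw1').1, he]
    rw [← h4] at he
    have h5 : EqOn (g y') (g y) (ball z δ) := by
      refine hLUN f (ball z δ) (g y') (g y) w isOpen_ball (convex_ball _ _).isPreconnected h1'.continuousOn
        h1.continuousOn ?_ ?_ hw1 he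
      · intro v hv
        rw [(h3 v hv).1, (h3' v hv).1]
      · intro v hv
        exact (h3' v hv).2
    have h6 := h5 (mem_ball_self hδ)
    rw [h2, h2'] at h6
    exact hne h6.symm
  have hmeas : ∀ y ∈ Y, MeasurableSet (g y '' ball z (δ / 2)) := by
    intro y hy
    obtain ⟨h1, h2, h3⟩ := hg y hy.1 hy.2.1
    have hsub : ball z (δ / 2) ⊆ ball z δ := ball_subset_ball (by linarith)
    exact measurableSet_ball.image_of_continuousOn_injOn (h1.continuousOn.mono hsub) ((hinj y hy).mono hsub)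
  have hcpos : 0 < Real.pi * (δ / 2) ^ 2 := by positivity
  have hterm : ∀ y ∈ Y, ENNReal.ofReal (Real.pi * (δ / 2) ^ 2 * (‖B y‖ / ‖fd f y‖ ^ 2)) ≤
      ∫⁻ x in g y '' ball z (δ / 2), ‖B x‖ₑ := by
    intro y hy
    obtain ⟨h1, h2, h3⟩ := hg y hy.1 hy.2.1
    have h4 := SMB_one B (g y) z δ hδ h1 (hinj y hy) (fun w hw =>
      hBd.differentiableAt (hP.isClosed.isOpen_compl.mem_nhds (hnP y hy w hw)))
    have h5 : HasDerivAt (fun w => f.eval (g y w)) (fd f (g y z) * deriv (g y) z) z :=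
      HasDerivAt.comp z (f.hasDerivAt (g y z)) (h1.differentiableAt (ball_mem_nhds z hδ)).hasDerivAt
    have h6 : HasDerivAt (fun w => f.eval (g y w)) 1 z := by
      refine (hasDerivAt_id z).congr_of_eventuallyEq ?_
      filter_upwards [ball_mem_nhds z hδ] with w hw
      exact (h3 w hw).1
    have h7 : fd f y * deriv (g y) z = 1 := by
      have := h5.unique h6
      rwa [h2] at this
    have h8 : ‖deriv (g y) z‖ ^ 2 = 1 / ‖fd f y‖ ^ 2 := by
      have h9 : ‖fd f y‖ * ‖deriv (g y) z‖ = 1 := by rw [← norm_mul, h7, norm_one]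
      have h10 : ‖fd f y‖ ≠ 0 := norm_ne_zero_iff.2 hy.2.1
      field_simp
      rw [← mul_pow, mul_comm, h9, one_pow]
    rw [h8, h2, mul_one_div] at h4
    exact h4
  -- the good part
  have hI : ∫⁻ x in E, ‖B x‖ₑ < ⊤ := hBE.hasFiniteIntegral
  have hgood : Summable (fun y : pre f z => if (y : ℂ) ∈ Y then ‖B y‖ / ‖fd f y‖ ^ 2 else 0) := by
    refine summable_of_sum_le (c := (∫⁻ x in E, ‖B x‖ₑ).toReal / (Real.pi * (δ / 2) ^ 2)) ?_ ?_
    · intro y
      show (0 : ℝ) ≤ if (y : ℂ) ∈ Y then ‖B y‖ / ‖fd f y‖ ^ 2 else 0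
      split_ifs <;> positivity
    · intro u
      rw [le_div_iff₀ hcpos, mul_comm, Finset.mul_sum]
      have h1 : ∑ y ∈ u, Real.pi * (δ / 2) ^ 2 * (if (y : ℂ) ∈ Y then ‖B y‖ / ‖fd f y‖ ^ 2 else 0) =
          ∑ y ∈ u.filter (fun y : pre f z => (y : ℂ) ∈ Y), Real.pi * (δ / 2) ^ 2 * (‖B y‖ / ‖fd f y‖ ^ 2) := by
        rw [Finset.sum_filter]
        refine Finset.sum_congr rfl fun y _ => ?_
        split_ifs <;> simp
      rw [h1, ← ENNReal.ofReal_le_iff_le_toReal hI.ne, ENNReal.ofReal_sum_of_nonneg (fun y _ => by positivity)]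
      calc ∑ y ∈ u.filter (fun y : pre f z => (y : ℂ) ∈ Y), ENNReal.ofReal (Real.pi * (δ / 2) ^ 2 * (‖B y‖ / ‖fd f y‖ ^ 2))
          ≤ ∑ y ∈ u.filter (fun y : pre f z => (y : ℂ) ∈ Y), ∫⁻ x in g y '' ball z (δ / 2), ‖B x‖ₑ :=
            Finset.sum_le_sum fun y hy => hterm y (Finset.mem_filter.1 hy).2
        _ = ∫⁻ x in ⋃ y ∈ u.filter (fun y : pre f z => (y : ℂ) ∈ Y), g y '' ball z (δ / 2), ‖B x‖ₑ := by
            rw [lintegral_biUnion_finset]
            · intro y hy y' hy' hne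
              exact hdisj y (Finset.mem_filter.1 hy).2 y' (Finset.mem_filter.1 hy').2
                (fun h => hne (Subtype.ext h))
            · intro y hy
              exact hmeas y (Finset.mem_filter.1 hy).2
        _ ≤ ∫⁻ x in E, ‖B x‖ₑ := by
            refine lintegral_mono_set ?_
            exact iUnion₂_subset fun y hy => hsubE y (Finset.mem_filter.1 hy).2
  have hbad : Summable (fun y : pre f z => if (y : ℂ) ∈ Y then 0 else ‖B y‖ / ‖fd f y‖ ^ 2) := by
    refine summable_of_hasFiniteSupport ?_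
    have h1 : {y : pre f z | (y : ℂ) ∈ P}.Finite := hP.preimage Subtype.val_injective.injOn
    refine h1.subset ?_
    intro y hy
    rw [Function.mem_support] at hy
    by_contra hyP
    refine hy ?_
    show (if (y : ℂ) ∈ Y then (0 : ℝ) else ‖B y‖ / ‖fd f y‖ ^ 2) = 0
    by_cases h2 : fd f y = 0
    · have h3 : (y : ℂ) ∉ Y := fun h => h.2.1 h2
      rw [if_neg h3, h2]
      simp
    · have h3 : (y : ℂ) ∈ Y := ⟨y.2, h2, hyP⟩
      rw [if_pos h3]
  refine (hgood.add hbad).congr fun y => ?_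
  split_ifs <;> simp

end YPPS

end
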