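import Pool.Agent.helper61.CSW.Base
import Pool.Agent.helper61.CSW.PP.SpecA
import Pool.Agent.helper61.CSW.Exports

/-!
# pp:STEP2: one more level in Phase 2
-/

set_option autoImplicit false

open Complex Metric Set Filter Topology MeasureTheory MPS

noncomputable section

open CSS (SE)

namespace YPPS

/-- gluing of branches on an increasing family of balls -/
theorem STEP2_glue (hLUN : LUN_stmt) (f : SE) (F : ℂ → ℂ) (x v : ℂ) (S : Set ℝ)
    (hSne : S.Nonempty) (hSb : BddAbove S) (hpos : ∀ r ∈ S, 0 < r)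
    (hbr : ∀ r ∈ S, Br f F (ball x r) x v) :
    Br f F (ball x (sSup S)) x v := by
  classical
  choose! h hd hv hr using hbr
  have hagree : ∀ r₁ ∈ S, ∀ r₂ ∈ S, r₁ ≤ r₂ → EqOn (h r₁) (h r₂) (ball x r₁) := by
    intro r₁ h1 r₂ h2 h12
    have hsub : ball x r₁ ⊆ ball x r₂ := ball_subset_ball h12
    refine hLUN f (ball x r₁) (h r₁) (h r₂) x isOpen_ball (convex_ball _ _).isPreconnected
      (hd r₁ h1).continuousOn ((hd r₂ h2).continuousOn.mono hsub) ?_ ?_ (mem_ball_self (hpos r₁ h1))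
      ?_
    · intro w hw
      rw [(hr r₁ h1 w hw).1, (hr r₂ h2 w (hsub hw)).1]
    · intro w hw
      exact (hr r₁ h1 w hw).2
    · rw [hv r₁ h1, hv r₂ h2]
  have hag : ∀ r₁ ∈ S, ∀ r₂ ∈ S, ∀ w, w ∈ ball x r₁ → w ∈ ball x r₂ → h r₁ w = h r₂ w := by
    intro r₁ h1 r₂ h2 w hw1 hw2
    rcases le_total r₁ r₂ with h12 | h12
    · exact hagree r₁ h1 r₂ h2 h12 hw1
    · exact (hagree r₂ h2 r₁ h1 h12 hw2).symm
  have hex : ∀ w ∈ ball x (sSup S), ∃ r ∈ S, w ∈ ball x r := by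
    intro w hw
    rw [mem_ball] at hw
    obtain ⟨r, hr1, hr2⟩ := exists_lt_of_lt_csSup hSne hw
    exact ⟨r, hr1, mem_ball.mpr hr2⟩
  choose! ρ hρS hρw using hex
  have heq : ∀ r ∈ S, ∀ w ∈ ball x r, w ∈ ball x (sSup S) → h (ρ w) w = h r w := by
    intro r h1 w hw hw'
    exact hag _ (hρS w hw') r h1 w (hρw w hw') hw
  refine ⟨fun w => h (ρ w) w, ?_, ?_, ?_⟩
  · intro w hw
    have h1 := hρS w hw
    have h2 := hρw w hw
    have h3 : DifferentiableAt ℂ (h (ρ w)) w := (hd _ h1).differentiableAt (isOpen_ball.mem_nhds h2)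
    have h4 : (fun w' => h (ρ w') w') =ᶠ[𝓝 w] h (ρ w) := by
      filter_upwards [isOpen_ball.mem_nhds h2, isOpen_ball.mem_nhds hw] with w' hw1 hw2
      exact heq _ h1 w' hw1 hw2
    exact (h3.congr_of_eventuallyEq h4).differentiableWithinAt
  · obtain ⟨r, h1⟩ := hSne
    have hx : x ∈ ball x (sSup S) := mem_ball_self (lt_of_lt_of_le (hpos r h1) (le_csSup hSb h1))
    show h (ρ x) x = v
    rw [heq r h1 x (mem_ball_self (hpos r h1)) hx, hv r h1]
  · intro w hw
    exact hr _ (hρS w hw) w (hρw w hw)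

end YPPS
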