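import Pool.Agent.helper61.CSW.PP.PRB
import Pool.Agent.helper61.CSW.PP.LUN
import Pool.Agent.helper61.CSW.PP.LIFT
import Pool.Agent.helper61.CSW.PP.RGB
import Pool.Agent.helper61.CSW.PP.BDY
import Pool.Agent.helper61.CSW.PP.PEX
import Pool.Agent.helper61.CSW.PP.PTN
import Pool.Agent.helper61.CSW.PP.PSM
import Pool.Agent.helper61.CSW.PP.MS
import Pool.Agent.helper61.CSW.PP.MCV
import Pool.Agent.helper61.CSW.PP.SMB
import Pool.Agent.helper61.CSW.PP.NIJ
import Pool.Agent.helper61.CSW.PP.EVT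
import Pool.Agent.helper61.CSW.PP.MI
import Pool.Agent.helper61.CSW.PP.STEP2
import Pool.Agent.helper26.CSS.LPT
import Pool.Agent.helper2.CSS.LIF
import Pool.Agent.helper99.CSS.NPL
import Pool.Agent.helper99.CSS.LGB
import Pool.Agent.helper79.CSS.LGA
import Pool.Agent.helper73.CSS.LGI
import Pool.Agent.helper39.CSS.LUQ
import Pool.Agent.helper75.CSS.RAX
import Pool.Agent.helper48.CSS.MMB

/-! csw: part A (preimages, measurability, lifting for the maps of class S): assembly. -/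

set_option autoImplicit false

noncomputable section

open CSS (SE)

namespace YPPS

theorem PRB_p : PRB_stmt := PRB
theorem LUN_p : LUN_stmt := LUN
theorem LIFT_p : LIFT_stmt := LIFT CSS.LPT
theorem BDY_p : BDY_stmt := BDY LUN_p LIFT_p
theorem PEX_p : PEX_stmt := PEX
theorem RGB_p : RGB_stmt := RGB LUN_p LIFT_p
theorem PTN_p : PTN_stmt := PTN
theorem PSM_p : PSM_stmt := PSM
theorem MS_p : MS_stmt := MS PTN_p PSM_p
theorem MCV_p : MCV_stmt := MCV PTN_p PSM_p
theorem SMB_p : SMB_stmt := SMB LUN_p RGB_p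
theorem LGA_p : CSS.LGA_stmt := CSS.LGA (CSS.LIF CSS.LPT)
theorem LGB_p : CSS.LGB_stmt := CSS.LGB LGA_p (CSS.LGI CSS.LUQ CSS.NPL)
theorem RAX_p : CSS.RAX_stmt := CSS.RAX (CSS.MMB CSS.NPL)
theorem NIJ_p : NIJ_stmt := NIJ CSS.NPL RAX_p LGB_p

end YPPS
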