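import Pool.Agent.helper61.CSW.Base
import Pool.Agent.helper61.CSW.Exports
import Pool.Agent.helper91.CSS.PP.Defs

/-!
# Project csw: (MP_70a088_an), block W for class S: definitions

The definitions `fd, fdd, pre, TT, CV, Br, IsCyc, rho, Exact` are those of helper91/CSS/PP/Defs.lean (namespace `SPPS`), exported into the namespace `YPPS` of this folder.
-/

set_option autoImplicit false

open Complex Metric Set Filter Topology MeasureTheory MPS

noncomputable section

open CSS (SE)

namespace YPPS

export SPPS (fd fdd pre TT CV Br IsCyc IsCyc.inj IsCyc.step IsCyc.ne0 IsCyc.mk rho Exact mem_pre fd_eq fd_zero fd_ne mem_CV)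

/-- the branch `h` of `f⁻¹ ∘ F` on `ball a r` has no extension (without critical points) to a neighbourhood of the boundary point `ws`. -/
def NX (f : SE) (F h : ℂ → ℂ) (a : ℂ) (r : ℝ) (ws : ℂ) : Prop :=
  ∀ δ > (0 : ℝ), ∀ g : ℂ → ℂ, DifferentiableOn ℂ g (ball ws δ) →
    (∀ w ∈ ball ws δ, f.eval (g w) = F w ∧ fd f (g w) ≠ 0) → ¬ ∀ w ∈ ball a r ∩ ball ws δ, g w = h w

/-- admissible differentials for sums over fibres: holomorphic off a finite set, integrable near infinity. -/
def DC (B : ℂ → ℂ) : Prop := (∃ P : Set ℂ, P.Finite ∧ DifferentiableOn ℂ B Pᶜ) ∧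
  ∃ R : ℝ, IntegrableOn B (closedBall (0 : ℂ) R)ᶜ

theorem fd_eq' (f : SE) (z : ℂ) : fd f z = deriv f.f z := rfl

theorem eval_eq (f : SE) (z : ℂ) : f.eval z = f.f z := rfl

theorem fd_cont (f : SE) : Continuous (fd f) := f.derivative.continuous

theorem fd_dif (f : SE) : Differentiable ℂ (fd f) := f.derivative.differentiable

theorem fd_hasDeriv (f : SE) (z : ℂ) : HasDerivAt (fd f) (fdd f z) z := f.derivative.hasDerivAt z

theorem CV_fin (f : SE) : (CV f).Finite := f.fin

/-- a preimage of a regular value is not critical. -/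
theorem fd_ne_of (f : SE) (y : ℂ) (h : f.eval y ∉ CV f) : fd f y ≠ 0 := fun h0 => h (Or.inl ⟨y, h0, rfl⟩)

end YPPS
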