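import Pool.Agent.helper61.CSW.Base
import Pool.Agent.helper61.CSW.PP.SpecA
import Pool.Agent.helper61.CSW.Exports

/-! pp:EVT -/

set_option autoImplicit false

open Complex Metric Set Filter Topology MeasureTheory MPS

noncomputable section

open CSS (SE)

namespace YPPS

/-- one of `n` dyadic rings contains no critical value. -/
theorem EVT_ring (hPRB : PRB_stmt) (f : SE) (n : ℕ) (hn : 2 ≤ n) (hdeg : f.natDegree = n)
    (G : ℂ → ℂ) (ws : ℂ) (d : ℝ) (hd : 0 < d) (hinj : InjOn G (ball ws d)) :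
    ∃ t : ℝ, d / 4 ^ n ≤ t ∧ t ≤ d ∧ 0 < t ∧ ∀ w, t / 4 < ‖w - ws‖ → ‖w - ws‖ < t → G w ∉ CV f := by
  by_contra hcon
  push Not at hcon
  have h1 : ∀ s : Fin n, ∃ w, d / 4 ^ ((s : ℕ) + 1) < ‖w - ws‖ ∧ ‖w - ws‖ < d / 4 ^ (s : ℕ) ∧
      G w ∈ CV f := by
    intro s
    have h4 : (1 : ℝ) ≤ 4 ^ (s : ℕ) := one_le_pow₀ (by norm_num)
    obtain ⟨w, hw1, hw2, hw3⟩ := hcon (d / 4 ^ (s : ℕ))
      (div_le_div_of_nonneg_left hd.le (by positivity) (pow_le_pow_right₀ (by norm_num) s.2.le))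
      (div_le_self hd.le h4) (by positivity)
    refine ⟨w, ?_, hw2, hw3⟩
    rw [pow_succ, ← div_div]
    exact hw1
  choose w hw1 hw2 hw3 using h1
  have hwd : ∀ s, w s ∈ ball ws d := by
    intro s
    rw [mem_ball, dist_eq_norm]
    exact (hw2 s).trans_le (div_le_self hd.le (one_le_pow₀ (by norm_num)))
  have hwinj : Function.Injective w := by
    intro s s' he
    by_contra hne
    rcases lt_or_gt_of_ne hne with h | h
    · have h2 := hw1 s
      have h3 := hw2 s'
      rw [← he] at h3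
      have h4 : d / 4 ^ (s' : ℕ) ≤ d / 4 ^ ((s : ℕ) + 1) :=
        div_le_div_of_nonneg_left hd.le (by positivity) (pow_le_pow_right₀ (by norm_num) h)
      linarith
    · have h2 := hw1 s'
      have h3 := hw2 s
      rw [he] at h3
      have h4 : d / 4 ^ (s : ℕ) ≤ d / 4 ^ ((s' : ℕ) + 1) :=
        div_le_div_of_nonneg_left hd.le (by positivity) (pow_le_pow_right₀ (by norm_num) h)
      linarith
  have hGinj : Function.Injective fun s => G (w s) := fun s s' he => hwinj (hinj (hwd s) (hwd s') he)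
  obtain ⟨-, hfin, hcard⟩ := hPRB f (by omega)
  have h5 : n ≤ (CV f).ncard := by
    have h6 : (Set.range fun s => G (w s)) ⊆ CV f := by
      rintro _ ⟨s, rfl⟩
      exact hw3 s
    have h7 := Set.ncard_le_ncard h6 hfin
    rwa [← Set.image_univ, Set.ncard_image_of_injective _ hGinj, Set.ncard_univ, Nat.card_fin] at h7
  omega

/-- the branch continued once around the ring comes back different. -/
theorem EVT_mono (hLUN : LUN_stmt) (hPEX : PEX_stmt) (f : SE) (hf : 1 ≤ f.natDegree)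
    (G h : ℂ → ℂ) (a ws w₀ ξ₀ : ℂ) (r t : ℝ) (ht : 0 < t) (htr : t ≤ r) (hwsa : ‖ws - a‖ = r)
    (hG : DifferentiableOn ℂ G (ball ws t)) (hinj : InjOn G (ball ws t))
    (hh : DifferentiableOn ℂ h (ball a r))
    (hrel : ∀ w ∈ ball a r ∩ ball ws t, f.eval (h w) = G w ∧ fd f (h w) ≠ 0)
    (hNX : NX f G h a r ws)
    (hw₀ : w₀ ∈ ball a r ∩ ball ws t) (hw₀t : t / 4 < ‖w₀ - ws‖) (hξ₀ : ws + Complex.exp ξ₀ = w₀)
    (Y : ℂ → ℂ) (hY : DifferentiableOn ℂ Y {ξ : ℂ | Real.log (t / 4) < ξ.re ∧ ξ.re < Real.log t})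
    (hYr : ∀ ξ : ℂ, Real.log (t / 4) < ξ.re → ξ.re < Real.log t →
      f.eval (Y ξ) = G (ws + Complex.exp ξ) ∧ fd f (Y ξ) ≠ 0)
    (hY0 : Y ξ₀ = h w₀) : Y (ξ₀ + 2 * Real.pi * I) ≠ h w₀ := by
  intro hcon
  set N : Set ℂ := {ξ : ℂ | Real.log (t / 4) < ξ.re ∧ ξ.re < Real.log t} with hN
  have hNo : IsOpen N :=
    (isOpen_lt continuous_const Complex.continuous_re).inter
      (isOpen_lt Complex.continuous_re continuous_const)
  have hNc : Convex ℝ N := (convex_halfSpace_re_gt _).inter (convex_halfSpace_re_lt _)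
  have hshift : ∀ (ξ : ℂ) (m : ℤ), (ξ + m * (2 * Real.pi * I)).re = ξ.re := by
    intro ξ m
    simp
  have hexp : ∀ (ξ : ℂ) (m : ℤ), Complex.exp (ξ + m * (2 * Real.pi * I)) = Complex.exp ξ := by
    intro ξ m
    exact Complex.exp_periodic.int_mul m ξ
  have hlog : ∀ w, t / 4 < ‖w - ws‖ → ‖w - ws‖ < t → Complex.log (w - ws) ∈ N ∧
      ws + Complex.exp (Complex.log (w - ws)) = w := by
    intro w h1 h2
    have h0 : w - ws ≠ 0 := by
      intro h
      rw [h, norm_zero] at h1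
      linarith
    refine ⟨⟨?_, ?_⟩, ?_⟩
    · rw [Complex.log_re]; exact Real.log_lt_log (by positivity) h1
    · rw [Complex.log_re]; exact Real.log_lt_log ((by positivity : (0:ℝ) < t / 4).trans h1) h2
    · rw [Complex.exp_log h0]; ring
  have hw₀n : ‖w₀ - ws‖ < t := by
    have := hw₀.2
    rwa [mem_ball, dist_eq_norm] at this
  have hξ₀N : ξ₀ ∈ N := by
    have e1 : ‖w₀ - ws‖ = Real.exp ξ₀.re := by
      rw [← hξ₀, add_sub_cancel_left, Complex.norm_exp]
    rw [e1] at hw₀t hw₀n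
    exact ⟨(Real.log_lt_iff_lt_exp (by positivity)).2 hw₀t, (Real.lt_log_iff_exp_lt ht).2 hw₀n⟩
  -- periodicity
  have hper1 : ∀ ξ ∈ N, Y (ξ + 2 * Real.pi * I) = Y ξ := by
    have hsh : ∀ ξ : ℂ, (ξ + 2 * Real.pi * I).re = ξ.re := by intro ξ; simp
    have hex : ∀ ξ : ℂ, Complex.exp (ξ + 2 * Real.pi * I) = Complex.exp ξ := Complex.exp_periodic
    have hm : MapsTo (fun ξ : ℂ => ξ + 2 * Real.pi * I) N N := by
      intro ξ hξ
      show Real.log (t / 4) < (ξ + 2 * Real.pi * I).re ∧ (ξ + 2 * Real.pi * I).re < Real.log t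
      rw [hsh]
      exact hξ
    have hd : DifferentiableOn ℂ (fun ξ => Y (ξ + 2 * Real.pi * I)) N :=
      hY.comp (differentiable_id.add_const _).differentiableOn hm
    refine hLUN f N (fun ξ => Y (ξ + 2 * Real.pi * I)) Y ξ₀ hNo hNc.isPreconnected hd.continuousOn
      hY.continuousOn ?_ ?_ hξ₀N (hcon.trans hY0.symm)
    · intro ξ hξ
      show f.eval (Y (ξ + 2 * Real.pi * I)) = f.eval (Y ξ)
      rw [(hYr _ (hm hξ).1 (hm hξ).2).1, (hYr ξ hξ.1 hξ.2).1, hex]
    · intro ξ hξ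
      exact (hYr _ (hm hξ).1 (hm hξ).2).2
  have hperN : ∀ (m : ℕ), ∀ ξ ∈ N, Y (ξ + m * (2 * Real.pi * I)) = Y ξ := by
    intro m
    induction m with
    | zero => intro ξ _; simp
    | succ m ih =>
      intro ξ hξ
      have e1 : ξ + ((m + 1 : ℕ) : ℂ) * (2 * Real.pi * I) =
          (ξ + m * (2 * Real.pi * I)) + 2 * Real.pi * I := by push_cast; ring
      have e2 : ξ + m * (2 * Real.pi * I) ∈ N := by
        have e3 : (ξ + m * (2 * Real.pi * I)).re = ξ.re := by simp
        show _ < (ξ + m * (2 * Real.pi * I)).re ∧ (ξ + m * (2 * Real.pi * I)).re < _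
        rw [e3]
        exact hξ
      rw [e1, hper1 _ e2, ih ξ hξ]
  have hper : ∀ (m : ℤ), ∀ ξ ∈ N, Y (ξ + m * (2 * Real.pi * I)) = Y ξ := by
    intro m ξ hξ
    obtain ⟨j, hj | hj⟩ := m.eq_nat_or_neg
    · rw [hj]
      exact_mod_cast hperN j ξ hξ
    · have e2 : ξ + m * (2 * Real.pi * I) ∈ N := by
        show _ < (ξ + m * (2 * Real.pi * I)).re ∧ (ξ + m * (2 * Real.pi * I)).re < _
        rw [hshift]
        exact hξ
      have e3 := hperN j _ e2
      rw [← e3, hj]
      congr 1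
      push_cast
      ring
  have hpereq : ∀ ξ ∈ N, ∀ ξ' ∈ N, Complex.exp ξ = Complex.exp ξ' → Y ξ = Y ξ' := by
    intro ξ hξ ξ' hξ' he
    obtain ⟨m, hm⟩ := Complex.exp_eq_exp_iff_exists_int.1 he
    rw [hm]
    exact hper m ξ' hξ'
  -- the branch on the ring
  set y : ℂ → ℂ := fun w => Y (Complex.log (w - ws)) with hy
  have hyd : DifferentiableOn ℂ y {w | t / 4 < ‖w - ws‖ ∧ ‖w - ws‖ < t} := by
    rintro w ⟨h1, h2⟩
    refine DifferentiableAt.differentiableWithinAt ?_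
    have h0 : w - ws ≠ 0 := by
      intro h
      rw [h, norm_zero] at h1
      linarith
    obtain ⟨hl1, hl2⟩ := hlog w h1 h2
    set l : ℂ := Complex.log (w - ws) with hl
    have e1 : DifferentiableAt ℂ (fun w' : ℂ => l + Complex.log ((w' - ws) / (w - ws))) w := by
      refine DifferentiableAt.const_add _ ?_
      refine DifferentiableAt.clog ?_ ?_
      · exact (differentiableAt_id.sub_const _).div_const _
      · show (w - ws) / (w - ws) ∈ Complex.slitPlane
        rw [div_self h0]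
        exact Complex.one_mem_slitPlane
    have e2 : l + Complex.log ((w - ws) / (w - ws)) = l := by
      rw [div_self h0, Complex.log_one, add_zero]
    have e3 : DifferentiableAt ℂ (fun w' : ℂ => Y (l + Complex.log ((w' - ws) / (w - ws)))) w := by
      have e4 : DifferentiableAt ℂ Y (l + Complex.log ((w - ws) / (w - ws))) := by
        rw [e2]
        exact hY.differentiableAt (hNo.mem_nhds hl1)
      exact e4.comp w e1
    refine e3.congr_of_eventuallyEq ?_
    have a1 : ∀ᶠ w' in 𝓝 w, l + Complex.log ((w' - ws) / (w - ws)) ∈ N := by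
      have := e1.continuousAt
      refine this.eventually ?_
      show ∀ᶠ z in 𝓝 (l + Complex.log ((w - ws) / (w - ws))), z ∈ N
      rw [e2]
      exact hNo.mem_nhds hl1
    have hcn : Continuous fun w' : ℂ => ‖w' - ws‖ := (continuous_id.sub continuous_const).norm
    have a2 : ∀ᶠ w' in 𝓝 w, t / 4 < ‖w' - ws‖ := hcn.continuousAt.eventually (lt_mem_nhds h1)
    have a3 : ∀ᶠ w' in 𝓝 w, ‖w' - ws‖ < t := hcn.continuousAt.eventually (gt_mem_nhds h2)
    filter_upwards [a1, a2, a3] with w' b1 b2 b3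
    refine hpereq _ (hlog w' b2 b3).1 _ b1 ?_
    have h0' : w' - ws ≠ 0 := by
      intro h
      rw [h, norm_zero] at b2
      linarith
    rw [Complex.exp_log h0', Complex.exp_add, Complex.exp_log (div_ne_zero h0' h0), hl,
      Complex.exp_log h0, mul_div_cancel₀ _ h0]
  have hyr : ∀ w, t / 4 < ‖w - ws‖ → ‖w - ws‖ < t → f.eval (y w) = G w := by
    intro w h1 h2
    obtain ⟨hl1, hl2⟩ := hlog w h1 h2
    show f.eval (Y (Complex.log (w - ws))) = G w
    rw [(hYr _ hl1.1 hl1.2).1, hl2]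
  obtain ⟨Z, hZd, hZy, hZr⟩ := hPEX f G y ws (t / 4) t hf (by positivity) (by linarith) hG hinj hyd hyr
  have hZ0 : ∀ w ∈ ball ws t, fd f (Z w) ≠ 0 := by
    intro w hw h0
    have e1 : HasDerivAt (fun w => f.eval (Z w)) (f.derivative.eval (Z w) * deriv Z w) w :=
      (f.hasDerivAt (Z w)).comp w (hZd.differentiableAt (isOpen_ball.mem_nhds hw)).hasDerivAt
    have e2 : G =ᶠ[𝓝 w] fun w => f.eval (Z w) := by
      filter_upwards [isOpen_ball.mem_nhds hw] with v hv
      exact (hZr v hv).symm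
    have e3 : deriv G w = 0 := by
      rw [e2.deriv_eq, e1.deriv]
      have : f.derivative.eval (Z w) = 0 := h0
      rw [this, zero_mul]
    obtain ⟨e, he, hsub⟩ := Metric.isOpen_iff.1 isOpen_ball w hw
    exact EVT_deriv he (hG.mono hsub) (hinj.mono hsub) e3
  have hagree : EqOn Z h (ball a r ∩ ball ws t) := by
    refine hLUN f _ Z h w₀ (isOpen_ball.inter isOpen_ball)
      ((convex_ball a r).inter (convex_ball ws t)).isPreconnected
      (hZd.continuousOn.mono inter_subset_right) (hh.continuousOn.mono inter_subset_left) ?_ ?_ hw₀ ?_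
    · intro w hw
      rw [hZr w hw.2, (hrel w hw).1]
    · intro w hw
      exact hZ0 w hw.2
    · rw [hZy w₀ hw₀t hw₀n, ← hY0]
      obtain ⟨hl1, hl2⟩ := hlog w₀ hw₀t hw₀n
      refine hpereq _ hl1 _ hξ₀N ?_
      exact add_left_cancel (hl2.trans hξ₀.symm)
  exact hNX t ht Z hZd (fun w hw => ⟨hZr w hw, hZ0 w hw⟩) (fun w hw => hagree hw)

end YPPS
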