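import Pool.Agent.helper61.CSW.PP.SpecA

/-! csw:PRB: the preimages and the singular values. -/

set_option autoImplicit false

open Complex Metric Set Filter Topology MeasureTheory MPS

noncomputable section

open CSS (SE)

namespace YPPS

theorem PRB_mem (f : SE) (_hf : 1 ≤ f.natDegree) (z y : ℂ) : y ∈ pre f z ↔ f.eval y = z := Iff.rfl

theorem PRB : PRB_stmt := by
  intro f hf
  refine ⟨PRB_mem f hf, CV_fin f, ?_⟩
  have h : (CV f).ncard = (CSS.SV f).card := by
    rw [CSS.SV]
    exact Set.ncard_eq_toFinset_card _ f.fin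
  rw [h, CSS.SE.natDegree_eq]
  omega

end YPPS
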